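import Pool.Agent.MP_c69980_ag.I4.Spec
import Pool.Agent.MP_c69980_ag.E1.BaseC

/-!
Local rings, generic points and the open part of the model.
-/

set_option autoImplicit false

noncomputable section

namespace Pool.Agent.MP_c69980_ag.I4

open MvPolynomial Metric Filter Topology Set
open H60 H4 E1

variable {n n' : ℕ} {K : Type} [Field K] [Algebra ℂ K] {z : Fin n → K} {U : Set (PS n)}

lemma on_rep (hz : GenPt U z) {x : PS n} (hx : x ∈ zcl U) : On z x.rep := fun G d hG h =>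
  mem_zcl.1 hx G d hG ((hz.1 G d hG).1 h)

lemma sub_zcl : U ⊆ zcl U := fun _ hx _ hZ => hZ.2 hx

lemma loc_iff {x : PS n} (hx : On z x.rep) (u : K) : u ∈ locRing z x ↔ Reg z x.rep u :=
  mem_locRing hx u

lemma unit_iff {x : PS n} (hx : On z x.rep) (u : locRing z x) :
    IsUnit u ↔ vl z (u : K) x.rep ≠ 0 := by
  have hu := (loc_iff hx _).1 u.2
  refine ⟨fun h q => ?_, fun h => ?_⟩
  · obtain ⟨v, hv⟩ := h.exists_right_inv
    have h1 := (vl_mul hx hu ((loc_iff hx _).1 v.2)).2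
    rw [q, zero_mul, show (u : K) * v = 1 from congrArg Subtype.val hv, (vl_one hx).2] at h1
    exact one_ne_zero h1
  · have h0 : (u : K) ≠ 0 := fun q => h (by rw [q]; exact (vl_zero hx).2)
    exact IsUnit.of_mul_eq_one ⟨_, (loc_iff hx _).2 (vl_inv hx ⟨hu, h⟩).1⟩
      (Subtype.ext (mul_inv_cancel₀ h0))

lemma inv_iff {y : V n} (hy : On z y) {u : K} (hu : Reg z y u) (h0 : u ≠ 0) :
    Reg z y u⁻¹ ↔ vl z u y ≠ 0 := by
  refine ⟨fun h q => ?_, fun h => (vl_inv hy ⟨hu, h⟩).1⟩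
  have h1 := (vl_mul hy hu h).2
  rw [q, zero_mul, mul_inv_cancel₀ h0, (vl_one hy).2] at h1
  exact one_ne_zero h1

lemma gen_ne (hz : GenPt U z) : U.Nonempty := by
  by_contra q
  have := (hz.1 1 0 (isHomogeneous_one _ _)).2 fun P hP => (q ⟨P, hP⟩).elim
  simp at this

lemma gen_nz (hz : GenPt U z) : ∃ j, z j ≠ 0 := by
  obtain ⟨P, hP⟩ := gen_ne hz
  obtain ⟨j, hj⟩ := Function.ne_iff.1 P.rep_nonzero
  exact ⟨j, fun e => hj (by simpa using (hz.1 (X j) 1 (isHomogeneous_X _ _)).1 (by simpa) P hP)⟩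

/-- Common denominators. -/
lemma rat (hz : GenPt U z) {N : ℕ} (ξ : Fin N → K) : ∃ (A : Fin N → PR n) (G : PR n) (d : ℕ),
    (∀ i, (A i).IsHomogeneous d) ∧ G.IsHomogeneous d ∧ aeval z G ≠ 0 ∧
      ∀ i, aeval z (A i) = aeval z G * ξ i := by
  classical
  choose F G d hF hG h0 e using fun i => quot hz (ξ i)
  refine ⟨fun i => F i * ∏ k ∈ Finset.univ.erase i, G k, ∏ k, G k, ∑ k, d k, fun i => ?_,
    IsHomogeneous.prod _ _ _ fun k _ => hG k, ?_, fun i => ?_⟩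
  · rw [← Finset.add_sum_erase _ _ (Finset.mem_univ i)]
    exact (hF i).mul (IsHomogeneous.prod _ _ _ fun k _ => hG k)
  · rw [map_prod]
    exact Finset.prod_ne_zero_iff.2 fun k _ => h0 k
  · rw [← Finset.mul_prod_erase _ _ (Finset.mem_univ i), map_mul, map_mul, e i]
    have := h0 i
    field_simp

variable {W : Set (PS n')} {z' : Fin n' → K} {π : PS n' → PS n} {m : ℕ}
  {E : Fin 2 → Derivation ℂ K K} {h : Fin 3 → K}

/-- Values are compatible with the map `π`. -/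
lemma dom (hz : GenPt U z) (ld : LDat U z W z' π m E h) {y : PS n'} (hy : y ∈ W) {u : K}
    (hu : Reg z (π y).rep u) : Reg z' y.rep u ∧ vl z' u y.rep = vl z u (π y).rep := by
  obtain ⟨-, a1, a2, -⟩ := ld.2.2.2.2.2.2.2 y hy
  have o := on_rep hz a1
  have o' := on_rep ld.2.1 (sub_zcl hy)
  have h1 := (loc_iff o' _).1 (a2 u ((loc_iff o _).2 hu)).1
  refine ⟨h1, ?_⟩
  set c := vl z u (π y).rep
  have b := vl_add o hu (vl_const o (-c)).1
  have b' := vl_add o' h1 (vl_const o' (-c)).1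
  rw [(vl_const o _).2, add_neg_cancel] at b
  rw [(vl_const o' _).2] at b'
  rw [← sub_eq_zero, sub_eq_add_neg, ← b'.2]
  by_cases e : u + algebraMap ℂ K (-c) = 0
  · rw [e, (vl_zero o').2]
  by_contra q
  exact (inv_iff o b.1 e).1 ((loc_iff o _).1 ((a2 _ ((loc_iff o _).2 b.1)).2
    ((loc_iff o' _).2 ((inv_iff o' b'.1 e).2 q)))) b.2

lemma rg2 (ld : LDat U z W z' π m E h) : Rg2 W z' := by
  intro x hx
  obtain ⟨a1, -, -, t, r, g, d, b1, b2, -, -, -, b3⟩ := ld.2.2.2.2.2.2.2 x hx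
  refine ⟨a1, ?_⟩
  have e := IsLocalRing.eq_maximalIdeal b1
  have h1 : (IsLocalRing.maximalIdeal (locRing z' x)).spanFinrank ≤ 2 := by
    rw [← e]
    refine (Submodule.spanFinrank_span_le_ncard_of_finite (finite_range t)).trans ?_
    rw [← image_univ]
    exact (ncard_image_le finite_univ).trans (by simp)
  have h2 : ¬ (IsLocalRing.maximalIdeal (locRing z' x)).spanFinrank ≤ 1 := fun q => by
    obtain ⟨s, hs⟩ : (IsLocalRing.maximalIdeal (locRing z' x)).IsPrincipal := by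
      rcases Nat.le_one_iff_eq_zero_or_eq_one.1 q with q | q
      · rw [(Submodule.spanFinrank_eq_zero_iff_eq_bot (IsNoetherian.noetherian _)).1 q]
        exact bot_isPrincipal
      · exact ((Submodule.spanFinrank_eq_one_iff _).1 q).1
    obtain ⟨a, -, ha⟩ := nak ld.2.1 hx E (fun _ => s) (by
      rw [range_const, ← Ideal.submodule_span_eq, ← hs]; infer_instance) _ (b3 0)
    rw [Matrix.det_fin_two, Matrix.of_apply, Matrix.of_apply, Matrix.of_apply, Matrix.of_apply,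
      sub_self, zero_pow ld.2.2.2.2.1.ne', mul_zero] at ha
    exact mul_ne_zero (pow_ne_zero _ (Finset.prod_ne_zero_iff.2 fun i _ q =>
      b2 i (Subtype.ext q))) ld.2.2.2.2.2.1 ha
  rw [← a1.spanFinrank_maximalIdeal, show _ = 2 from le_antisymm h1 (by omega)]
  rfl

lemma gen_open (ld : LDat U z W z' π m E h) : GenPt {x ∈ W | π x ∈ U} z' := by
  refine ⟨fun F d hF => ⟨fun q P hP => (ld.2.1.1 F d hF).1 q P hP.1, fun q => ?_⟩, ld.2.1.2⟩
  obtain ⟨x, hx⟩ := gen_ne ld.2.1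
  obtain ⟨-, -, -, t, r, g, e, -, -, b1, b2, b3, -⟩ := ld.2.2.2.2.2.2.2 x hx
  obtain ⟨A, B, f, hA, hB, B0, eq⟩ := quot ld.2.1 (∏ i ∈ r, (t i : K))⁻¹
  have h1 := (ld.2.1.1 _ _ (hF.mul (b1.mul hB))).2 fun P hP => by
    rw [map_mul, map_mul]
    by_contra c
    have c2 := mul_ne_zero_iff.1 (right_ne_zero_of_mul c)
    exact left_ne_zero_of_mul c (q P ⟨hP, (b3 P hP c2.1).2.2
      ((loc_iff (on_rep ld.2.1 (sub_zcl hP)) _).2 ⟨A, B, f, hA, hB, c2.2, eq⟩)⟩)
  rw [map_mul, map_mul] at h1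
  exact (mul_eq_zero.1 h1).resolve_right
    (mul_ne_zero (fun c => b2 ((ld.2.1.1 g e b1).1 c x hx)) B0)

lemma ld_open (ld : LDat U z W z' π m E h) : LDat {x ∈ W | π x ∈ U} z' W z' id m E h := by
  have hg := gen_open ld
  obtain ⟨a1, a2, a3, a4, a5, a6, a7, a8⟩ := ld
  refine ⟨a1, a2, a3, a4, a5, a6, a7, fun x hx => ?_⟩
  obtain ⟨b1, -, -, t, r, g, e, c1, c2, c3, c4, c5, c6⟩ := a8 x hx
  exact ⟨b1, mem_zcl.2 fun F d hF q => (a2.1 F d hF).1 ((hg.1 F d hF).2 q) x hx,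
    fun u hu => ⟨hu, id⟩, t, r, g, e, c1, c2, c3, c4, fun y hy q =>
      ⟨(c5 y hy q).1, (and_iff_right hy).trans (c5 y hy q).2⟩, c6⟩

end Pool.Agent.MP_c69980_ag.I4
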