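import Pool.Agent.MP_c69980_ag.I4.Base
import Pool.Agent.MP_f3836a_nt.PK.ELen

/-!
The relations between the local coordinates cut out the surface near a regular point.
-/

set_option autoImplicit false

noncomputable section

namespace Pool.Agent.MP_c69980_ag.I4

open MvPolynomial Metric Filter Topology Set
open H60 H4 E1

namespace CutX

/-- A local ring of embedding dimension at most two maps injectively onto a ring of dimension
two. -/
lemma inj {S O : Type} [CommRing S] [IsLocalRing S] [IsNoetherianRing S] [CommRing O]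
    (χ : S →+* O) (hs : Function.Surjective χ) (hd : ringKrullDim O = 2)
    (h2 : (IsLocalRing.maximalIdeal S).spanFinrank ≤ 2) : Function.Injective χ := by
  have h3 : (((IsLocalRing.maximalIdeal S).spanFinrank : ℕ) : WithBot ℕ∞) ≤ 2 := by
    exact_mod_cast h2
  have : IsRegularLocalRing S := IsRegularLocalRing.of_spanFinrank_maximalIdeal_le S
    (h3.trans (hd ▸ ringKrullDim_le_of_surjective χ hs))
  have : IsDomain S := Pool.Agent.MP_f3836a_nt.PK.rDom S
  rw [injective_iff_map_eq_zero]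
  intro r hr
  by_contra h0
  have h4 := ((ringKrullDim_succ_le_of_surjective χ hs (mem_nonZeroDivisors_of_ne_zero h0)
    hr).trans (ringKrullDim_le_spanFinrank_maximalIdeal S)).trans h3
  rw [hd] at h4
  exact absurd h4 (by decide)

lemma kerle {R O : Type} [CommRing R] [IsLocalRing R] [IsNoetherianRing R] [CommRing O]
    [Nontrivial O] (ψ : R →+* O) (hs : Function.Surjective ψ) (hd : ringKrullDim O = 2)
    (I : Ideal R) (hI : ∀ f ∈ I, ψ f = 0) (u v : R)
    (hm : IsLocalRing.maximalIdeal R = I ⊔ Ideal.span {u, v}) (f : R) (hf : ψ f = 0) : f ∈ I := by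
  have := (Ideal.Quotient.lift I ψ hI).domain_nontrivial
  have : IsLocalRing (R ⧸ I) := .of_surjective' _ Ideal.Quotient.mk_surjective
  have h := inj (Ideal.Quotient.lift I ψ hI) (Ideal.Quotient.lift_surjective_of_surjective I hI hs)
    hd (by
      rw [← IsLocalRing.map_maximalIdeal_of_surjective (Ideal.Quotient.mk I)
        Ideal.Quotient.mk_surjective, hm, Ideal.map_sup, Ideal.map_quotient_self, bot_sup_eq,
        Ideal.map_span, image_pair]
      exact (Submodule.spanFinrank_span_le_ncard_of_finite (toFinite _)).trans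
        ((ncard_insert_le _ _).trans (by simp)))
  exact Ideal.Quotient.eq_zero_iff_mem.1 ((injective_iff_map_eq_zero _).1 h _ hf)

/-- The algebraic core. -/
lemma core {P O : Type} [CommRing P] [IsNoetherianRing P] [CommRing O] [Nontrivial O]
    (m J : Ideal P) [hp : m.IsPrime] (φ : P →+* O) (hd : ringKrullDim O = 2)
    (hu : ∀ G ∉ m, IsUnit (φ G)) (hs : ∀ o, ∃ F G, G ∉ m ∧ o * φ G = φ F)
    (hJ : ∀ f ∈ J, φ f = 0) (hJm : J ≤ m) (u v : P) (um : u ∈ m) (vm : v ∈ m) (T : Set P)
    (hT : m ≤ Ideal.span T) (hm : ∀ f ∈ T, ∃ s ∉ m, s * f ∈ J ⊔ Ideal.span {u, v}) :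
    ∃ s ∉ m, ∀ f, φ f = 0 → s * f ∈ J := by
  have key : ∀ f, φ f = 0 → ∃ s ∉ m, s * f ∈ J := fun f hf => by
    have hg : ∀ y : m.primeCompl, IsUnit (φ y) := fun y => hu y y.2
    let a := algebraMap P (Localization.AtPrime m)
    let ψ : Localization.AtPrime m →+* O := IsLocalization.lift hg
    have e : ∀ g, ψ (a g) = φ g := IsLocalization.lift_eq hg
    refine (IsLocalization.algebraMap_mem_map_algebraMap_iff m.primeCompl
      (Localization.AtPrime m) J f).1 (kerle ψ ((IsLocalization.lift_surjective_iff hg).2 fun o =>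
        ?_) hd _ ?_ (a u) (a v) ?_ _ ((e f).trans hf))
    · obtain ⟨F, G, h1, h2⟩ := hs o
      exact ⟨(F, ⟨G, h1⟩), h2⟩
    · exact Ideal.map_le_iff_le_comap.2 (show J ≤ (RingHom.ker ψ).comap a from
        fun g q => (e g).trans (hJ g q))
    · rw [← image_pair, ← Ideal.map_span, ← Ideal.map_sup,
        ← Localization.AtPrime.map_eq_maximalIdeal]
      refine le_antisymm (Ideal.map_le_iff_le_comap.2 (hT.trans (Ideal.span_le.2 fun g q =>
        (IsLocalization.algebraMap_mem_map_algebraMap_iff m.primeCompl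
          (Localization.AtPrime m) _ g).2 (hm g q)))) (Ideal.map_mono (sup_le hJm ?_))
      exact Ideal.span_le.2 (pair_subset um vm)
  have all : ∀ N : Ideal P, N.FG → N ≤ RingHom.ker φ → ∃ s ∉ m, ∀ f ∈ N, s * f ∈ J := by
    intro N hN
    induction N, hN using Submodule.fg_induction with
    | singleton x =>
      intro h
      obtain ⟨s, h1, h2⟩ := key x (h (Submodule.mem_span_singleton_self x))
      refine ⟨s, h1, fun f hf => ?_⟩
      obtain ⟨c, rfl⟩ := Submodule.mem_span_singleton.1 hf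
      rw [smul_eq_mul, mul_left_comm]
      exact J.mul_mem_left _ h2
    | sup N₁ N₂ _ _ i₁ i₂ =>
      intro h
      obtain ⟨s, h1, h2⟩ := i₁ (le_sup_left.trans h)
      obtain ⟨t, h3, h4⟩ := i₂ (le_sup_right.trans h)
      refine ⟨s * t, fun q => (hp.mem_or_mem q).elim h1 h3, fun f hf => ?_⟩
      obtain ⟨y, hy, w, hw, rfl⟩ := Submodule.mem_sup.1 hf
      rw [show s * t * (y + w) = t * (s * y) + s * (t * w) by ring]
      exact J.add_mem (J.mul_mem_left _ (h2 y hy)) (J.mul_mem_left _ (h4 w hw))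
  exact all _ (IsNoetherian.noetherian _) le_rfl

variable {n : ℕ}

lemma kerp (p : V n) : RingHom.ker (eval p : PR n →+* ℂ) ≤
    Ideal.span (range fun c => (X c - C (p c) : PR n)) := by
  have h : ∀ f : PR n, f - C (eval p f) ∈ Ideal.span (range fun c => (X c - C (p c) : PR n)) := by
    intro f
    induction f using MvPolynomial.induction_on with
    | C a => simp
    | add f g a b =>
      rw [map_add, map_add, add_sub_add_comm]
      exact Ideal.add_mem _ a b
    | mul_X f c a =>
      rw [show f * X c - C (eval p (f * X c)) = X c * (f - C (eval p f)) +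
        C (eval p f) * (X c - C (p c)) by rw [map_mul, map_mul, eval_X]; ring]
      exact Ideal.add_mem _ (Ideal.mul_mem_left _ _ a)
        (Ideal.mul_mem_left _ _ (Ideal.subset_span ⟨c, rfl⟩))
  intro f hf
  simpa [RingHom.mem_ker.1 hf] using h f

lemma homog (s₀ : PR n) (j : Fin n) : ∃ (s : PR n) (d : ℕ), s.IsHomogeneous d ∧
    (∀ y : V n, y j = 0 → eval y s = 0) ∧ ∀ q : V n, q j = 1 → eval q s = eval q s₀ := by
  refine ⟨X j * ∑ d ∈ Finset.range (s₀.totalDegree + 1),
    X j ^ (s₀.totalDegree - d) * homogeneousComponent d s₀, 1 + s₀.totalDegree,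
    (isHomogeneous_X _ _).mul (IsHomogeneous.sum _ _ _ fun d hd => ?_), fun y h => by simp [h],
    fun q h => ?_⟩
  · have := (isHomogeneous_X_pow (R := ℂ) j (s₀.totalDegree - d)).mul
      (homogeneousComponent_isHomogeneous d s₀)
    rwa [Nat.sub_add_cancel (Nat.lt_succ_iff.1 (Finset.mem_range.1 hd))] at this
  · conv_rhs => rw [← sum_homogeneousComponent s₀]
    simp [h]

lemma lf_hom (x : V n) (j c : Fin n) : (lf x j c).IsHomogeneous 1 :=
  ((isHomogeneous_X _ _).C_mul _).sub ((isHomogeneous_X _ _).C_mul _)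

lemma ct_hom (x : V n) (j a b c : Fin n) {g A B : PR n} {e : ℕ} (hg : g.IsHomogeneous e)
    (hA : A.IsHomogeneous e) (hB : B.IsHomogeneous e) :
    (ct x j a b c g A B).IsHomogeneous (e + 1) :=
  ((hg.mul (lf_hom x j c)).sub (hA.mul (lf_hom x j a))).sub (hB.mul (lf_hom x j b))

end CutX

open CutX in
theorem cut : CutStmt := by
  intro n W K _ _ z hW hz hR x hx j a b g A B e hj H
  obtain ⟨S, hS, rfl⟩ := hW
  have o := on_rep hz (sub_zcl hx)
  have zj : z j ≠ 0 := fun q => hj (by simpa using o (X j) 1 (isHomogeneous_X _ _) (by simpa))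
  have hX : eval x.rep (X j : PR n) ≠ 0 := by simpa
  have rg : ∀ i, Reg z x.rep (((z j)⁻¹ • z) i) := fun i =>
    ⟨X i, X j, 1, isHomogeneous_X _ _, isHomogeneous_X _ _, hX, by simp [div_eq_inv_mul]⟩
  set p : V n := (x.rep j)⁻¹ • x.rep with hp
  have pj : p j = 1 := by simp [hp, hj]
  have vp : (fun i => vl z (((z j)⁻¹ • z) i) x.rep) = p := funext fun i => by
    simpa [hp, div_eq_inv_mul] using vl_eq o (isHomogeneous_X ℂ i) (isHomogeneous_X ℂ j) hX
  let φ : PR n →ₐ[ℂ] locRing z x := aeval fun i => ⟨_, (loc_iff o _).2 (rg i)⟩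
  have eφ : ∀ F, (φ F : K) = aeval ((z j)⁻¹ • z) F := fun F =>
    comp_aeval_apply _ (locRing z x).val F
  have kφ : ∀ (F : PR n) (d : ℕ), F.IsHomogeneous d → aeval z F = 0 → φ F = 0 :=
    fun F d hF q => Subtype.ext (by rw [eφ, aeval_smul_hom hF, q, mul_zero]; rfl)
  have ep : ∀ (F : PR n) (d : ℕ) (y : V n), y j ≠ 0 → F.IsHomogeneous d →
      (eval ((y j)⁻¹ • y) F = 0 ↔ eval y F = 0) := fun F d y h hF => by
    rw [eval_smul_hom hF, mul_eq_zero, or_iff_right (pow_ne_zero _ (inv_ne_zero h))]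
  have lp : ∀ c, eval p (lf x.rep j c) = 0 := fun c =>
    (ep _ 1 _ hj (lf_hom _ _ _)).2 (by simp [lf, mul_comm])
  have hc := fun c => ct_hom x.rep j a b c (H c).1 (H c).2.1 (H c).2.2.1
  let J : Ideal (PR n) := Ideal.span {f | f = X j - 1 ∨
    ∃ c, c ≠ j ∧ c ≠ a ∧ c ≠ b ∧ f = ct x.rep j a b c (g c) (A c) (B c)}
  have Jk : ∀ y : V n, y j ≠ 0 → (∀ c, c ≠ j → c ≠ a → c ≠ b →
      eval y (ct x.rep j a b c (g c) (A c) (B c)) = 0) →
      J ≤ RingHom.ker (eval ((y j)⁻¹ • y)) := fun y h1 h2 => Ideal.span_le.2 (by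
    rintro f (rfl | ⟨c, c1, c2, c3, rfl⟩)
    · simp [h1]
    · exact (ep _ _ y h1 (hc c)).2 (h2 c c1 c2 c3))
  have := RingHom.ker_isPrime (eval p : PR n →+* ℂ)
  obtain ⟨s₀, h0, hs⟩ := core (RingHom.ker (eval p : PR n →+* ℂ)) J φ.toRingHom (hR x hx).2
    (fun G hG => (unit_iff o _).2 (by
      rw [show ((φ.toRingHom G : locRing z x) : K) = _ from eφ G, (vl_aeval o rg G).2, vp]
      exact hG))
    (fun u => by
      obtain ⟨F, G, d, hF, hG, h1, h2⟩ := (loc_iff o _).1 u.2
      refine ⟨F, G, fun q => h1 ((ep G d _ hj hG).1 q), Subtype.ext ?_⟩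
      change (u : K) * φ G = φ F
      rw [eφ, eφ, aeval_smul_hom hF, aeval_smul_hom hG, h2, mul_left_comm,
        div_mul_cancel₀ _ fun q => h1 (o G d hG q)])
    (show J ≤ RingHom.ker φ.toRingHom from Ideal.span_le.2 (by
      rintro f (rfl | ⟨c, -, -, -, rfl⟩)
      · change φ (X j - 1) = 0
        exact Subtype.ext (by rw [eφ]; simp [zj])
      · exact kφ _ _ (hc c) (H c).2.2.2.2))
    (Jk _ hj fun c _ _ _ => o _ _ (hc c) (H c).2.2.2.2) (lf x.rep j a) (lf x.rep j b)
    (lp a) (lp b) _ (kerp p) (by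
      rintro _ ⟨c, rfl⟩
      have j1 : (X j - 1 : PR n) ∈ J ⊔ Ideal.span {lf x.rep j a, lf x.rep j b} :=
        Ideal.mem_sup_left (Ideal.subset_span (Or.inl rfl))
      have ja : lf x.rep j a ∈ J ⊔ Ideal.span {lf x.rep j a, lf x.rep j b} :=
        Ideal.mem_sup_right (Ideal.subset_span (by simp))
      have jb : lf x.rep j b ∈ J ⊔ Ideal.span {lf x.rep j a, lf x.rep j b} :=
        Ideal.mem_sup_right (Ideal.subset_span (by simp))
      have h1 : g c * lf x.rep j c ∈ J ⊔ Ideal.span {lf x.rep j a, lf x.rep j b} := by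
        by_cases c1 : c = j
        · simp [c1, lf]
        by_cases c2 : c = a
        · rw [c2]
          exact Ideal.mul_mem_left _ _ ja
        by_cases c3 : c = b
        · rw [c3]
          exact Ideal.mul_mem_left _ _ jb
        rw [show g c * lf x.rep j c = ct x.rep j a b c (g c) (A c) (B c) + A c * lf x.rep j a +
          B c * lf x.rep j b by rw [ct]; ring]
        exact Ideal.add_mem _ (Ideal.add_mem _ (Ideal.mem_sup_left (Ideal.subset_span
          (Or.inr ⟨c, c1, c2, c3, rfl⟩))) (Ideal.mul_mem_left _ _ ja)) (Ideal.mul_mem_left _ _ jb)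
      refine ⟨g c * C (x.rep j), fun q => ?_, ?_⟩
      · rw [RingHom.mem_ker, map_mul, eval_C, mul_eq_zero, or_iff_left hj] at q
        exact (H c).2.2.2.1 ((ep _ _ _ hj (H c).1).1 q)
      · have e1 : (C (x.rep j) * C (p c) : PR n) = C (x.rep c) := by
          rw [← map_mul]; simp [hp, hj]
        rw [show g c * C (x.rep j) * (X c - C (p c)) = g c * lf x.rep j c +
          g c * C (x.rep c) * (X j - 1) by rw [lf]; linear_combination (-g c) * e1]
        exact Ideal.add_mem _ h1 (Ideal.mul_mem_left _ _ j1))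
  obtain ⟨s, d, s1, s2, s3⟩ := homog s₀ j
  refine ⟨s, d, s1, fun q => h0 ?_, fun y hy h F hF => ?_⟩
  · rw [RingHom.mem_ker, ← s3 p pj]
    exact (ep s d _ hj s1).2 q
  · have yj : y.rep j ≠ 0 := fun q => hy (s2 _ q)
    obtain ⟨k, hk⟩ := hS F hF
    have h1 := Jk _ yj h (hs F (kφ F k hk ((hz.1 F k hk).2 fun P hP => hP F hF)))
    rw [RingHom.mem_ker, map_mul, ← s3 _ (by simp [yj]), mul_eq_zero, ep s d _ yj s1,
      ep F k _ yj hk] at h1
    exact h1.resolve_left hy

end Pool.Agent.MP_c69980_ag.I4
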