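import Pool.Agent.MP_c69980_ag.I4.Base
import Pool.Agent.MP_f3836a_nt.PK.BReg

/-!
Rational maps from a smooth surface to an elliptic curve are defined everywhere.
-/

set_option autoImplicit false

noncomputable section

namespace Pool.Agent.MP_c69980_ag.I4

open MvPolynomial Metric Filter Topology Set
open H60 H4 E1

theorem walg : WalgStmt := by
  intro K _ _ O hO hd hfr N ξ hξ
  classical
  obtain ⟨-, -, -, hP, -⟩ := Pool.Agent.MP_f3836a_nt.PK.rReg O hd
  let 𝒮 : Set (Ideal O) := {I | ∃ l : K, l ≠ 0 ∧ ∃ η : Fin N → O, (∀ i, (η i : K) = l * ξ i) ∧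
    I = Ideal.span (range η)}
  have hne : 𝒮.Nonempty := by
    choose a ha b hb h0 e using fun i => hfr (ξ i)
    refine ⟨_, ∏ i, b i, Finset.prod_ne_zero_iff.2 fun i _ => h0 i,
      fun i => ⟨a i * ∏ k ∈ Finset.univ.erase i, b k,
        mul_mem (ha i) (prod_mem fun k _ => hb k)⟩, fun i => ?_, rfl⟩
    rw [← Finset.mul_prod_erase _ _ (Finset.mem_univ i), e i]
    have := h0 i
    field_simp
  obtain ⟨_, ⟨l, l0, η, hη, rfl⟩, hmax⟩ := wellFounded_gt.has_min 𝒮 hne
  have nb : Ideal.span (range η) ≠ ⊥ := fun c => hξ (funext fun i => by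
    have : η i = 0 := Ideal.span_eq_bot.1 c _ ⟨i, rfl⟩
    have h := hη i
    rw [this] at h
    exact (mul_eq_zero.1 h.symm).resolve_left l0)
  have key : ∀ P : Ideal O, Ideal.span (range η) ≤ P → P.IsPrime →
      P = IsLocalRing.maximalIdeal O := by
    intro P h1 h2
    by_contra c
    obtain ⟨π, hπ, rfl⟩ := hP P h2 (fun e => nb (le_bot_iff.1 (e ▸ h1))) c
    choose η' hη' using fun i =>
      Ideal.mem_span_singleton'.1 (h1 (Ideal.subset_span (mem_range_self i)))
    have p0 : (π : K) ≠ 0 := fun e => hπ.ne_zero (Subtype.ext e)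
    have le : Ideal.span (range η) ≤ Ideal.span {π} • Ideal.span (range η') := by
      rw [Ideal.span_le]
      rintro _ ⟨i, rfl⟩
      rw [← hη' i, mul_comm]
      exact Submodule.smul_mem_smul (Ideal.mem_span_singleton_self π) (Ideal.subset_span ⟨i, rfl⟩)
    have le' : Ideal.span (range η) ≤ Ideal.span (range η') := le.trans Submodule.smul_le_right
    have e : Ideal.span (range η) = Ideal.span (range η') := by
      refine le'.eq_of_not_lt (hmax _ ⟨l / π, div_ne_zero l0 p0, η', fun i => ?_, rfl⟩)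
      have := congrArg Subtype.val (hη' i)
      rw [hη, MulMemClass.coe_mul] at this
      rw [div_mul_eq_mul_div, ← this, mul_div_cancel_right₀ _ p0]
    rw [← e] at le
    refine nb (Submodule.eq_bot_of_le_smul_of_le_jacobson_bot _ _ (IsNoetherian.noetherian _) le ?_)
    rw [IsLocalRing.jacobson_eq_maximalIdeal _ bot_ne_top]
    exact IsLocalRing.le_maximalIdeal h2.ne_top
  refine ⟨l, l0, fun i => hη i ▸ (η i).2, fun t ht => ?_⟩
  have : t ∈ (Ideal.span (range η)).radical := by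
    rw [Ideal.radical_eq_sInf, Ideal.mem_sInf]
    rintro P ⟨h1, h2⟩
    rw [key P h1 h2]
    exact ht
  obtain ⟨k, hk⟩ := this
  obtain ⟨c, hc⟩ := Ideal.mem_span_range_iff_exists_fun.1 hk
  refine ⟨k, fun i => c i, fun i => (c i).2, ?_⟩
  have := congrArg O.val hc
  simp only [map_sum, map_mul, map_pow, Subalgebra.coe_val, hη] at this
  exact this.symm

namespace ExtX

variable {n : ℕ} {K : Type} [Field K] [Algebra ℂ K] {z : Fin n → K} {y : V n}

lemma vl_rel (hy : On z y) {N k : ℕ} {α η : Fin N → K} {t : K} (ht : Reg z y t)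
    (hα : ∀ i, Reg z y (α i)) (hη : ∀ i, Reg z y (η i)) (h : t ^ k = ∑ i, α i * η i)
    (h0 : ∀ i, vl z (η i) y = 0) : vl z t y = 0 := by
  have e : (⟨t, ht⟩ : rg hy) ^ k = ∑ i, ⟨α i, hα i⟩ * ⟨η i, hη i⟩ := Subtype.ext (by simpa using h)
  have := congrArg (chi hy) e
  rw [map_pow, map_sum, Finset.sum_eq_zero fun i _ => by
    rw [map_mul]; exact mul_eq_zero_of_right _ (h0 i)] at this
  exact eq_zero_of_pow_eq_zero this

lemma vl_co (hy : On z y) {a j : Fin n} (hj : y j = 1) (c : ℂ) :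
    Reg z y (z a / z j + algebraMap ℂ K (-c)) ∧
      vl z (z a / z j + algebraMap ℂ K (-c)) y = y a - c := by
  have r : Reg z y (z a / z j) :=
    ⟨X a, X j, 1, isHomogeneous_X _ _, isHomogeneous_X _ _, by simp [hj], by simp⟩
  have v := vl_eq hy (isHomogeneous_X ℂ a) (isHomogeneous_X ℂ j) (by simp [hj])
  simp only [aeval_X, eval_X, hj, div_one] at v
  have := vl_add hy r (vl_const hy (-c)).1
  rwa [v, (vl_const hy _).2, ← sub_eq_add_neg] at this

end ExtX

open ExtX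

theorem ext (h1 : SurStmt) (h2 : WanStmt) (h3 : WalgStmt) : ExtStmt := by
  intro n W K _ _ z L ξ hz hR hW hξ hc x hx
  have ox := on_rep hz (sub_zcl hx)
  obtain ⟨a, b, j, U, Y, ⟨hU, hY, hp⟩, q, hq, H⟩ :=
    hW x.rep ⟨x.rep_nonzero, by rwa [Projectivization.mk_rep]⟩
  have oY : ∀ p ∈ U, On z (Y p) := fun p h => Cone.on hz (hp p h).2.2.2.1
  have H' : Pp (Y q) x.rep := H.symm
  have xj : x.rep j ≠ 0 := by
    obtain ⟨c, c0, e⟩ := H
    rw [e, Pi.smul_apply, (hp q hq).1]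
    simpa using c0
  have zj : z j ≠ 0 := fun e => xj (by simpa using ox _ _ (isHomogeneous_X ℂ j) (by simpa using e))
  obtain ⟨l, l0, hl, hrel⟩ := h3 K (locRing z x) (hR x hx).1 (hR x hx).2 (fun u => by
    obtain ⟨F, G, d, hF, hG, g0, rfl⟩ := quot hz u
    have r : ∀ P : PR n, P.IsHomogeneous d → aeval z P / z j ^ d ∈ locRing z x := fun P hP =>
      (loc_iff ox _).2 ⟨P, X j ^ d, d, hP, isHomogeneous_X_pow j d, by simp [xj], by simp⟩
    exact ⟨_, r F hF, _, r G hG, div_ne_zero g0 (pow_ne_zero _ zj),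
      (div_div_div_cancel_right₀ (pow_ne_zero _ zj) _ _).symm⟩) 3 ξ hξ
  have rl := fun i => (loc_iff ox _).1 (hl i)
  have eU : ∀ᶠ p in 𝓝 q, p ∈ U := hU.mem_nhds hq
  have an := fun (u : K) (hu : Reg z x.rep u) =>
    vl_an (hY q hq) (eU.mono oY) (H'.reg hu)
  have eR : ∀ᶠ p in 𝓝 q, ∀ i, Reg z (Y p) (l * ξ i) := eventually_all.2 fun i => (an _ (rl i)).2
  have co : ∀ c : Fin n, ∀ᶠ p in 𝓝 q, (∀ i, vl z (l * ξ i) (Y p) = 0) → Y p c = Y q c := by
    intro c
    have r := vl_co (a := c) (oY q hq) (hp q hq).1 (Y q c)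
    obtain ⟨k, α, hα, e⟩ := hrel ⟨_, (loc_iff ox _).2 (H.reg r.1)⟩ (by
      rw [unit_iff ox, not_not, H.vl (oY q hq) r.1, r.2, sub_self])
    filter_upwards [eU, eR, eventually_all.2 fun i => (an _ ((loc_iff ox _).1 (hα i))).2]
      with p p1 p2 p3 p4
    have r' := vl_co (a := c) (oY p p1) (hp p p1).1 (Y q c)
    exact sub_eq_zero.1 (r'.2.symm.trans (vl_rel (oY p p1) r'.1 p3 p2 e p4))
  have F0 := h2 L (fun p i => vl z (l * ξ i) (Y p)) q (analyticAt_pi_iff.2 fun i => (an _ (rl i)).1)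
    (by
      filter_upwards [self_mem_nhdsWithin, mem_nhdsWithin_of_mem_nhds eU,
        mem_nhdsWithin_of_mem_nhds eR, mem_nhdsWithin_of_mem_nhds (co a),
        mem_nhdsWithin_of_mem_nhds (co b)] with p p0 p1 p2 p3 p4
      refine ((h1 L).2 _).2 ⟨fun e => p0 (Prod.ext ?_ ?_), ?_⟩
      · rw [← (hp p p1).2.1, ← (hp q hq).2.1, p3 (congrFun e)]
      · rw [← (hp p p1).2.2.1, ← (hp q hq).2.2.1, p4 (congrFun e)]
      · have : aeval (fun i => l * ξ i) (cub L) = l ^ 3 * aeval ξ (cub L) := by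
          simp only [cub, map_sub, map_mul, map_pow, aeval_X, aeval_C]
          ring
        rw [← (vl_aeval (oY p p1) p2 _).2, this, hc, mul_zero, (vl_zero (oY p p1)).2])
  obtain ⟨i, hi⟩ := Function.ne_iff.1 F0
  exact ⟨l, l0, rl, i, by rwa [H.vl (oY q hq) (H'.reg (rl i))]⟩

end Pool.Agent.MP_c69980_ag.I4
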