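import Pool.Agent.MP_c69980_ag.I4.Base

/-!
The Jacobian criterion: two coordinates generate the maximal ideal.
-/

set_option autoImplicit false

noncomputable section

namespace Pool.Agent.MP_c69980_ag.I4

open MvPolynomial Metric Filter Topology Set
open H60 H4 E1

namespace GenX

lemma two {R : Type} [CommRing R] (hR : IsRegularLocalRing R) (hd : ringKrullDim R = 2) {n : ℕ}
    (l : Fin n → R) (hl : Ideal.span (range l) = IsLocalRing.maximalIdeal R) :
    ∃ a b, a ≠ b ∧ l a ≠ 0 ∧ l b ≠ 0 ∧ ∀ c, ∃ α β : R, α * l a + β * l b = l c := by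
  have hm : ∀ c, l c ∈ IsLocalRing.maximalIdeal R := fun c =>
    hl ▸ Ideal.subset_span (mem_range_self c)
  let v : Fin n → IsLocalRing.CotangentSpace R := fun c =>
    (IsLocalRing.maximalIdeal R).toCotangent ⟨l c, hm c⟩
  have key : ∀ {κ : Type} (a : κ → Fin n),
      Submodule.span (IsLocalRing.ResidueField R) (range (v ∘ a)) = ⊤ ↔
        Ideal.span (range (l ∘ a)) = IsLocalRing.maximalIdeal R := fun a => by
    rw [← Ideal.submodule_span_eq,
      ← Submodule.span_range_subtype_eq_top_iff (s := l ∘ a) _ fun k => hm (a k),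
      ← IsLocalRing.CotangentSpace.span_image_eq_top_iff, ← range_comp]
    rfl
  obtain ⟨κ, a, h1, h2, h3⟩ := exists_linearIndependent' (IsLocalRing.ResidueField R) v
  rw [show Submodule.span _ (range v) = ⊤ from (key id).2 hl] at h2
  have := Finite.of_injective a h1
  have := Fintype.ofFinite κ
  have h4 := finrank_span_eq_card h3
  have h5 := (IsRegularLocalRing.iff_finrank_cotangentSpace R).1 hR
  rw [h2, finrank_top] at h4
  rw [hd, h4] at h5
  have e := (Fintype.equivFinOfCardEq (show Fintype.card κ = 2 by exact_mod_cast h5)).symm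
  have h6 : ∀ k, l (a k) ≠ 0 := fun k h => h3.ne_zero k (by
    show (IsLocalRing.maximalIdeal R).toCotangent ⟨l (a k), _⟩ = 0
    simp only [h]
    exact map_zero _)
  refine ⟨a (e 0), a (e 1), fun h => absurd (e.injective (h1 h)) (by decide), h6 _, h6 _,
    fun c => Ideal.mem_span_pair.1 ?_⟩
  have h7 : range (l ∘ a) = {l (a (e 0)), l (a (e 1))} := by
    rw [← e.surjective.range_comp]
    ext y
    simp only [mem_range, Fin.exists_fin_two, Function.comp_apply, mem_insert_iff,
      mem_singleton_iff, eq_comm]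
  rw [← h7, (key a).1 h2]
  exact hm c

lemma sub_mem {R : Type} [CommRing R] [Algebra ℂ R] {n : ℕ} (w : Fin n → R) (p : Fin n → ℂ)
    (F : PR n) : aeval w F - algebraMap ℂ R (eval p F) ∈
      Ideal.span (range fun c => w c - algebraMap ℂ R (p c)) := by
  induction F using MvPolynomial.induction_on with
  | C c => simp
  | add F G h1 h2 =>
    rw [map_add, map_add, map_add, add_sub_add_comm]
    exact add_mem h1 h2
  | mul_X F i h =>
    have e : aeval w (F * X i) - algebraMap ℂ R (eval p (F * X i)) =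
        (aeval w F - algebraMap ℂ R (eval p F)) * w i +
          algebraMap ℂ R (eval p F) * (w i - algebraMap ℂ R (p i)) := by
      simp only [map_mul, aeval_X, eval_X]
      ring
    rw [e]
    exact add_mem (Ideal.mul_mem_right _ _ h)
      (Ideal.mul_mem_left _ _ (Ideal.subset_span (mem_range_self i)))

lemma lf_hom {n : ℕ} (x : V n) (j c : Fin n) : (lf x j c).IsHomogeneous 1 :=
  ((isHomogeneous_X _ _).C_mul _).sub ((isHomogeneous_X _ _).C_mul _)

lemma ct_hom {n : ℕ} (x : V n) (j a b c : Fin n) {g A B : PR n} {e : ℕ} (hg : g.IsHomogeneous e)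
    (hA : A.IsHomogeneous e) (hB : B.IsHomogeneous e) :
    (ct x j a b c g A B).IsHomogeneous (e + 1) :=
  ((hg.mul (lf_hom x j c)).sub (hA.mul (lf_hom x j a))).sub (hB.mul (lf_hom x j b))

lemma grad {n : ℕ} (x : V n) (j a b c i : Fin n) (g A B : PR n) (h1 : i ≠ j) (h2 : i ≠ a)
    (h3 : i ≠ b) : eval x (pderiv i (ct x j a b c g A B)) =
      if c = i then eval x g * x j else 0 := by
  have e0 : ∀ k, eval x (lf x j k) = 0 := fun k => by simp [lf, mul_comm]
  have e1 : ∀ k, eval x (pderiv i (lf x j k)) = if k = i then x j else 0 := fun k => by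
    simp only [lf, map_sub, pderiv_C_mul, pderiv_X, map_mul, eval_C, Pi.single_apply,
      if_neg h1.symm]
    split_ifs <;> simp
  simp only [ct, map_sub, Derivation.leibniz, smul_eq_mul, map_add, map_mul, e0, e1,
    if_neg h2.symm, if_neg h3.symm]
  split_ifs <;> simp

end GenX

open GenX

theorem gen : GenStmt := by
  intro n W K _ _ z hz hR x hx
  have o := on_rep hz (sub_zcl hx)
  obtain ⟨j, hj⟩ := Function.ne_iff.1 x.rep_nonzero
  replace hj : x.rep j ≠ 0 := hj
  have zj : z j ≠ 0 := fun h => hj (by simpa using o (X j) 1 (isHomogeneous_X _ _) (by simpa))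
  obtain ⟨h1, h2⟩ := hR x hx
  have hw : ∀ c, Reg z x.rep (z c / z j) ∧ vl z (z c / z j) x.rep = x.rep c / x.rep j := fun c =>
    ⟨⟨X c, X j, 1, isHomogeneous_X _ _, isHomogeneous_X _ _, by simpa, by simp⟩, by
      simpa using vl_eq o (isHomogeneous_X ℂ c) (isHomogeneous_X ℂ j) (by simpa)⟩
  let w : Fin n → locRing z x := fun c => ⟨z c / z j, (loc_iff o _).2 (hw c).1⟩
  let p : Fin n → ℂ := fun c => x.rep c / x.rep j
  have ew : ∀ (F : PR n) (d : ℕ), F.IsHomogeneous d →
      ((aeval w F : locRing z x) : K) = (z j)⁻¹ ^ d * aeval z F ∧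
        vl z (aeval w F : locRing z x) x.rep = eval p F ∧
        eval p F = (x.rep j)⁻¹ ^ d * eval x.rep F := fun F d hF => by
    have e : ((aeval w F : locRing z x) : K) = aeval (fun c => z c / z j) F :=
      comp_aeval_apply _ (locRing z x).val F
    refine ⟨?_, ?_, ?_⟩
    · rw [e, ← aeval_scale hF]
      simp only [div_eq_inv_mul]
    · rw [e, (vl_aeval o (fun c => (hw c).1) F).2]
      simp only [(hw _).2, p]
    · rw [← eval_smul_hom hF]
      congr 2
      funext c
      simp only [p, div_eq_inv_mul, Pi.smul_apply, smul_eq_mul]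
  have hl : Ideal.span (range fun c => w c - algebraMap ℂ _ (p c)) =
      IsLocalRing.maximalIdeal (locRing z x) := by
    refine le_antisymm (Ideal.span_le.2 ?_) fun u hu => ?_
    · rintro _ ⟨c, rfl⟩ hc
      refine (unit_iff o _).1 hc ?_
      have e := (vl_add o (hw c).1 (vl_const o (-p c)).1).2
      rw [(hw c).2, (vl_const o _).2, map_neg, ← sub_eq_add_neg, add_neg_cancel] at e
      exact e
    · obtain ⟨F, G, d, hF, hG, h0, e⟩ := (loc_iff o _).1 u.2
      have h3 : vl z (u : K) x.rep = 0 := by_contra fun q => hu ((unit_iff o u).2 q)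
      rw [e, vl_eq o hF hG h0, div_eq_zero_iff, or_iff_left h0] at h3
      have h4 := sub_mem w p F
      rw [(ew F d hF).2.2, h3, mul_zero, map_zero, sub_zero] at h4
      have h5 : IsUnit (aeval w G) := (unit_iff o _).2 (by
        rw [(ew G d hG).2.1, (ew G d hG).2.2]
        exact mul_ne_zero (pow_ne_zero _ (inv_ne_zero hj)) h0)
      have h6 : aeval w F = aeval w G * u := Subtype.ext (by
        have : aeval z G ≠ 0 := fun q => h0 (o G d hG q)
        rw [Subalgebra.coe_mul, (ew F d hF).1, (ew G d hG).1, e]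
        field_simp)
      rwa [h6, Ideal.unit_mul_mem_iff_mem _ h5] at h4
  obtain ⟨a, b, hab, ha, hb, h3⟩ := two h1 h2 _ hl
  have hjj : w j - algebraMap ℂ _ (p j) = 0 := Subtype.ext (by simp [w, p, zj, hj])
  refine ⟨j, a, b, fun e => ha (e ▸ hjj), fun e => hb (e ▸ hjj), hab, hj, fun c => ?_⟩
  obtain ⟨α, β, e⟩ := h3 c
  obtain ⟨A, G, d, hA, hG, g0, e1⟩ := (loc_iff o _).1 α.2
  obtain ⟨B, G', d', hB, hG', g0', e2⟩ := (loc_iff o _).1 β.2
  refine ⟨G * G', A * G', G * B, d + d', hG.mul hG', hA.mul hG', hG.mul hB,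
    by rw [map_mul]; exact mul_ne_zero g0 g0', ?_⟩
  have e3 : (α : K) * (z a / z j - algebraMap ℂ K (x.rep a / x.rep j)) +
      β * (z b / z j - algebraMap ℂ K (x.rep b / x.rep j)) =
      z c / z j - algebraMap ℂ K (x.rep c / x.rep j) := congrArg Subtype.val e
  have n1 : aeval z G ≠ 0 := fun q => g0 (o G d hG q)
  have n2 : aeval z G' ≠ 0 := fun q => g0' (o G' d' hG' q)
  have n3 : algebraMap ℂ K (x.rep j) ≠ 0 := (map_ne_zero _).2 hj
  rw [e1, e2] at e3
  simp only [map_div₀] at e3
  simp only [ct, lf, map_sub, map_mul, aeval_C, aeval_X]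
  field_simp at e3
  linear_combination -e3

theorem smo (h1 : GenStmt) (h2 : CutStmt) : SmoStmt := by
  intro n W K _ _ z hW hz hR x hx
  obtain ⟨j, a, b, ja, jb, ab, hj, h3⟩ := h1 n W K z hz hR x hx
  choose g A B e h3 using h3
  obtain ⟨s, d, s1, s2, s3⟩ := h2 n W K z hW hz hR x hx j a b g A B e hj h3
  let S : Finset (Fin n) := ({j, a, b} : Finset (Fin n))ᶜ
  have hS : ∀ c, c ∈ S ↔ c ≠ j ∧ c ≠ a ∧ c ≠ b := fun c => by simp [S]
  have q := S.equivFin.symm
  refine ⟨S.card, d, fun k => ct x.rep j a b (q k) (g (q k)) (A (q k)) (B (q k)),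
    fun k => e (q k) + 1, s, ?_, fun k => ct_hom _ _ _ _ _ (h3 _).1 (h3 _).2.1 (h3 _).2.2.1, s1,
    s2, Fintype.linearIndependent_iff.2 fun u hu k => ?_, fun y hy => ⟨fun hyW k => ?_,
      fun h => s3 y hy fun c c1 c2 c3 => ?_⟩⟩
  · have := Finset.card_add_card_compl ({j, a, b} : Finset (Fin n))
    rw [Finset.card_eq_three.2 ⟨j, a, b, ja, jb, ab, rfl⟩, Fintype.card_fin] at this
    rw [add_comm]
    exact this
  · obtain ⟨c1, c2, c3⟩ := (hS _).1 (q k).2
    have h4 := congrFun hu (q k)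
    simp only [Finset.sum_apply, Pi.smul_apply, smul_eq_mul, grad _ _ _ _ _ _ _ _ _ c1 c2 c3,
      Subtype.coe_inj, q.injective.eq_iff, mul_ite, mul_zero, Finset.sum_ite_eq',
      Finset.mem_univ, if_true, Pi.zero_apply] at h4
    exact (mul_eq_zero.1 h4).resolve_right (mul_ne_zero (h3 _).2.2.2.1 hj)
  · exact (hz.1 _ _ (ct_hom _ _ _ _ _ (h3 _).1 (h3 _).2.1 (h3 _).2.2.1)).1 (h3 _).2.2.2.2 y hyW
  · have h4 := h (q.symm ⟨c, (hS c).2 ⟨c1, c2, c3⟩⟩)
    simpa only [Equiv.apply_symm_apply] using h4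

end Pool.Agent.MP_c69980_ag.I4
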