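import Pool.Agent.MP_c69980_ag.I4.Base
import Pool.Agent.MP_c69980_ag.E1.Pt
import Pool.Agent.MP_c69980_ag.H60.Kob2

/-!
Pointed maps to an open variety.
-/

set_option autoImplicit false

namespace Pool.Agent.MP_c69980_ag.I4

open MvPolynomial Metric Set
open H60 H4 E1 H43

theorem kbo : KBOStmt := by
  intro n U x j hj hG b hb
  set p := nrm j x.rep with hp
  have p1 : p j = 1 := by simp [hp, nrm, hj]
  have pb : 0 < ‖p b‖ := by simp [hp, nrm, hj, hb]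
  obtain ⟨ρ, K, ρ0, ρ1, K0, hl⟩ := lip2 p1 hG
  set δ := min ρ (‖p b‖ / 2) with hδ
  have δ0 : 0 < δ := by positivity
  refine ⟨min (1 / 2) (δ / (K + 1)), (‖p‖ + 1) * 2 / ‖p b‖, by positivity,
    (min_le_left _ _).trans (by norm_num), fun f hf hm h0 s hs a => ?_⟩
  obtain ⟨G, G1, G2⟩ := H60.lift hf
  have e : ∀ w ∈ ball (0 : ℂ) (3 / 4), nrm j (f w).rep = nrm j (G w) := fun w hw => by
    obtain ⟨h, e⟩ := G2 w hw
    obtain ⟨t, t0, ht⟩ := rep_mk h
    rw [e, ht, nrm_smul j t0]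
  have hD : Dk U 0 (3 / 4) G := ⟨G1, fun w hw =>
    ⟨(G2 w hw).1, (G2 w hw).2 ▸ hm (ball_subset_ball (by norm_num) hw)⟩⟩
  rw [mem_ball_zero_iff, lt_min_iff] at hs
  have k := hl G hD 0 (mem_closedBall_self (by norm_num)) s (mem_closedBall_zero_iff.2 hs.1.le)
  rw [← e 0 (mem_ball_self (by norm_num)), h0, ← hp, sub_self, norm_zero, min_eq_right ρ0.le,
    zero_add, sub_zero, ← e s (mem_ball_zero_iff.2 (by linarith [hs.1]))] at k
  have k1 : K * ‖s‖ < δ := by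
    have := (lt_div_iff₀ (by positivity)).1 hs.2
    nlinarith [norm_nonneg s]
  set y := (f s).rep
  have k2 : ‖nrm j y - p‖ < δ :=
    (min_lt_iff.1 (k.trans_lt k1)).resolve_left (not_lt.2 (min_le_left _ _))
  have k3 : ‖nrm j y a‖ ≤ ‖p‖ + 1 := by
    have h1 := norm_le_pi_norm (nrm j y) a
    have h2 := norm_le_norm_add_norm_sub' (nrm j y) p
    have h3 : δ ≤ 1 := (min_le_left _ _).trans ρ1
    linarith
  have k4 : ‖p b‖ / 2 ≤ ‖nrm j y b‖ := by
    have h1 := norm_le_pi_norm (nrm j y - p) b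
    have h2 := norm_le_norm_add_norm_sub (nrm j y b) (p b)
    have h3 : δ ≤ ‖p b‖ / 2 := min_le_right _ _
    rw [Pi.sub_apply] at h1
    linarith
  have yj : y j ≠ 0 := fun q => by
    rw [nrm, q, inv_zero, zero_smul, Pi.zero_apply, norm_zero] at k4
    linarith
  have ey : ∀ c, ‖y c‖ = ‖y j‖ * ‖nrm j y c‖ := fun c => by
    rw [← norm_mul, nrm, Pi.smul_apply, smul_eq_mul, mul_inv_cancel_left₀ yj]
  rw [ey a, ey b, mul_left_comm]
  refine mul_le_mul_of_nonneg_left (k3.trans ?_) (norm_nonneg _)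
  rw [div_mul_eq_mul_div, le_div_iff₀ pb]
  nlinarith [norm_nonneg p]

theorem pto (h1 : KBOStmt) (h2 : RigOStmt) : PtOStmt := by
  intro n W K _ _ z H a j₀ hW gen hH zH zj good ⟨Δ₂, c2, n2, hb⟩
  obtain ⟨R, d₂, hR, vR, q, qW, qR⟩ := E1.PtX.form c2 n2
  have hF := hH.mul (isHomogeneous_X ℂ j₀)
  have zF : aeval z (H * X j₀) ≠ 0 := by
    rw [map_mul, aeval_X]
    exact mul_ne_zero zH zj
  have zR : aeval z R ≠ 0 := fun e => qR ((gen.1 R d₂ hR).1 e q qW)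
  refine ⟨{P | ∀ G ∈ ({H * X j₀ * R} : Set (PR n)), eval P.rep G = 0},
    ⟨_, fun G hG => ⟨_, hG ▸ hF.mul hR⟩, rfl⟩, fun e => ?_, fun m Y hY y x hx => ?_⟩
  · have := (gen.1 _ _ (hF.mul hR)).2 fun P hP => e hP _ rfl
    rw [map_mul] at this
    exact mul_ne_zero zF zR this
  have hx2 : eval x.rep (H * X j₀) ≠ 0 ∧ eval x.rep R ≠ 0 := by
    rw [← mul_ne_zero_iff, ← map_mul]
    exact fun e => hx.2 fun G hG => hG ▸ e
  have kb : KB W x := by
    have h := hx2.1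
    rw [map_mul, eval_X, mul_ne_zero_iff] at h
    refine h1 n W x j₀ h.2 (good _ ?_)
    rw [nrm, eval_smul_hom hH]
    exact mul_ne_zero (pow_ne_zero _ (inv_ne_zero h.2)) h.1
  by_contra hinf
  let E := Set.Infinite.natEmbedding _ hinf
  obtain ⟨r, C, L, _, _, v, ι, c, sm, hc, mor, inj⟩ := sRedC n m Y y (fun j => E j) hY
    (fun j => (E j).2.1) (Subtype.val_injective.comp E.injective)
    fun j j' => (E j).2.2.2.trans (E j').2.2.2.symm
  have h3 := sHtBd sCd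
  obtain ⟨pl, cv⟩ := sCv1 h3 r C L v sm
  obtain ⟨d, hdd⟩ := hb r C L v sm.var sm.gen sm.deg sm.reg
  choose z' hz' using fun j => (cv.mor n _).1 (mor j)
  have ran : ∀ j, Set.range ((E j).1 ∘ ι) ⊆ W := fun j =>
    (Set.range_comp_subset_range _ _).trans (E j).2.2.1
  have fc : ∀ j, ((E j).1 ∘ ι) c = x := fun j => by
    rw [Function.comp_apply, hc]; exact (E j).2.2.2
  have hb1 : ∀ j, ht (z' j) ≤ n ^ 2 * d := fun j =>
    (h3 r n C L v pl _ _ cv (hz' j)).2.1 d (hdd _ (mor j) (ran j) fun e =>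
      hx2.2 (vR x (e ⟨c, fc j⟩)))
  obtain ⟨j, j', ne, l, hl⟩ := h2 n r W x C L v pl c (n ^ 2 * d) z' hW kb sm cv
    (fun j c' => ⟨_, ran j ⟨c', rfl⟩, hz' j c'⟩) hb1 fun j => fc j ▸ hz' j c
  refine ne (inj (_root_.funext fun c' => ?_))
  exact a2_uni cv.ff (a2_smul (hl ▸ hz' j c')) (hz' j' c')

end Pool.Agent.MP_c69980_ag.I4
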