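import Pool.Agent.MP_c69980_ag.I4.RigA

/-!
Rigidity of pointed curves of bounded height in an open variety.
-/

set_option autoImplicit false

noncomputable section

namespace Pool.Agent.MP_c69980_ag.I4

open MvPolynomial Metric Set Filter Topology
open H60 H43 E1 E1.RigX Pool.Agent.MP_f3836a_nt.PK

namespace RigX

variable {L : Type} [Field L] [Algebra ℂ L] {n N r : ℕ} {𝒰 : Ultrafilter ℕ}
  {θ : ℂ →+* Germ (𝒰 : Filter ℕ) ℂ}

/-- A linear form in the second group of variables. -/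
def ln {R : Type} [CommRing R] (r : ℕ) (a : (Bool × Fin n) × Fin N → R) (b : Bool × Fin n) :
    MvPolynomial (Fin r ⊕ Fin N) R := ∑ i, C (a (b, i)) * X (Sum.inr i)

lemma map_ln {R S : Type} [CommRing R] [CommRing S] (f : R →+* S)
    (a : (Bool × Fin n) × Fin N → R) (b : Bool × Fin n) :
    map f (ln r a b) = ln r (fun i => f (a i)) b := by
  simp [ln]

lemma aeval_ln (v : Fin r → L) (e : Fin N → L) (a : (Bool × Fin n) × Fin N → ℂ)
    (b : Bool × Fin n) : aeval (Sum.elim v e) (ln r a b) = ev a (E1.RigX.lf e b) := by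
  simp [ln, ev_lf, Algebra.smul_def]

variable {C : Set (PS r)} {v : Fin r → L} {pl : C → Pl L} {U : Set (PS n)}

theorem good (hU : IsVar U) (sm : Sm1 C v) (cv : H43.Cv C v pl) (e : Fin N → L) :
    ∃ s : Set ℂ, s.Countable ∧ ∀ (𝒰 : Ultrafilter ℕ) (θ : ℂ →+* Germ (𝒰 : Filter ℕ) ℂ),
      (∀ c ∈ s, θ c = ↑(fun _ : ℕ => c)) → ∀ (a : (Bool × Fin n) × Fin N → ℂ)
      (w : ℕ → (Bool × Fin n) × Fin N → ℂ) (b : Fin n), (∀ i, θ (a i) = pj 𝒰 fun k => w k i) →
      (∀ k c, ev (w k) (E1.RigX.lf e (false, c)) ≠ 0) → (∀ c, ev a (E1.RigX.lf e (false, c)) ≠ 0) →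
      (∀ k, pt e (w k) b = 1) → (∀ k c, ∃ x ∈ U, Red (pl c) (pt e (w k)) x) →
      pt e a b = 1 ∧ ∀ c x, Red (pl c) (pt e a) x → x ∈ U := by
  obtain ⟨s₁, c1, t1⟩ := var_tr hU
  obtain ⟨s₂, c2, t2⟩ := var_tr sm.var
  obtain ⟨s₃, c3, t3⟩ := lin_tr (Sum.elim v e)
  refine ⟨s₁ ∪ (s₂ ∪ s₃), c1.union (c2.union c3), fun 𝒰 θ hθ a w b ha w0 a0 w1 hw => ?_⟩
  replace t1 := t1 𝒰 θ fun c h => hθ c (Or.inl h)
  replace t2 := t2 𝒰 θ fun c h => hθ c (Or.inr (Or.inl h))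
  replace t3 := t3 𝒰 θ fun c h => hθ c (Or.inr (Or.inr h))
  have r0 : ∀ q, map θ (ln r a q) = map (pj 𝒰) (ln r (fun i k => w k i) q) := fun q => by
    simp only [map_ln, ha]
  have r1 : ∀ k q, tm k (ln r (fun i k => w k i) q) = ln r (w k) q := fun k q => map_ln _ _ _
  have one : pt e a b = 1 := by
    have h1 := (t3 (ln r a (true, b) - ln r a (false, b)) (ln r (fun i k => w k i) (true, b) -
      ln r (fun i k => w k i) (false, b)) (by rw [Rp, map_sub, map_sub, r0, r0])).2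
      (.of_forall fun k => by
        rw [map_sub, map_sub, r1, r1, aeval_ln, aeval_ln, sub_eq_zero]
        exact (div_eq_one_iff_eq (w0 k b)).1 (w1 k))
    rw [map_sub, aeval_ln, aeval_ln, sub_eq_zero] at h1
    exact (div_eq_one_iff_eq (a0 b)).2 h1
  refine ⟨one, fun c x hx => ?_⟩
  have hP : ∀ (c : C) u, u ∈ (pl c).V ↔ Reg v c.1.rep u := fun c u =>
    (cv.loc c u).trans (mem_locRing (cv1_on sm.gen c) u)
  obtain ⟨l, l1, l2, rfl⟩ := hx
  obtain ⟨F, B, d, hF, hB, B0, eq⟩ := cv1_den (cv1_on sm.gen c) fun j => (hP c _).1 (l1 j)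
  have Bv : aeval v B ≠ 0 := fun q => B0 (cv1_on sm.gen c B d hB q)
  have e1 : (fun j => eval c.1.rep (F j)) = eval c.1.rep B • fun j => (pl c).val (l * pt e a j) :=
    funext fun j => by
      rw [Pi.smul_apply, cv1_val cv.ff (cv1_on sm.gen c) (hP c) ((hP c _).1 (l1 j)), eq,
        vl_eq (cv1_on sm.gen c) (hF j) hB B0, smul_eq_mul, mul_div_cancel₀ _ B0]
  choose F' f1 f2 using fun j => rp_ex θ (hF j)
  obtain ⟨B', b1, b2⟩ := rp_ex θ hB
  have h1 : ∀ c, ∃ f, θ c = pj 𝒰 f := fun c => by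
    obtain ⟨f, hf⟩ := Quot.exists_rep (θ c)
    exact ⟨f, hf.symm⟩
  choose p hp using fun i => h1 (c.1.rep i)
  have h2 : ∀ j, θ (eval c.1.rep (F j)) = pj 𝒰 fun k => eval (fun i => p i k) (tm k (F' j)) :=
    fun j => by
      rw [map_eval, f1 j, show θ ∘ c.1.rep = pj 𝒰 ∘ p from funext hp, ← map_eval]
      exact congrArg _ (funext fun k => map_eval (Pi.evalRingHom _ k) p (F' j))
  have h3 : ∀ j, ∀ᶠ k in 𝒰, aeval v (tm k (F' b)) * pt e (w k) j = aeval v (tm k (F' j)) :=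
    fun j => by
    have h4 := (t3 (rename Sum.inl (F b) * ln r a (true, j) - rename Sum.inl (F j) *
      ln r a (false, j)) (rename Sum.inl (F' b) * ln r (fun i k => w k i) (true, j) -
        rename Sum.inl (F' j) * ln r (fun i k => w k i) (false, j)) (by
          rw [Rp, map_sub, map_sub, map_mul, map_mul, map_mul, map_mul, r0, r0, map_rename,
            map_rename, map_rename, map_rename, f1 b, f1 j])).1 (by
      have h5 := eq b
      have h6 := eq j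
      rw [one, mul_one, eq_div_iff Bv] at h5
      rw [eq_div_iff Bv, pt, mul_right_comm, h5, ← mul_div_assoc, div_eq_iff (a0 j)] at h6
      rw [map_sub, map_mul, map_mul, aeval_rename, aeval_rename, aeval_ln, aeval_ln,
        Sum.elim_comp_inl, h6, sub_self])
    refine h4.mono fun k q => ?_
    rw [map_sub, map_mul, map_mul, r1, r1, tm, map_rename, map_rename, map_sub, map_mul, map_mul,
      aeval_rename, aeval_rename, aeval_ln, aeval_ln, Sum.elim_comp_inl, sub_eq_zero] at q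
    rw [pt, ← mul_div_assoc, div_eq_iff (w0 k j)]
    exact q
  have h7 : (fun j => eval c.1.rep (F j)) ≠ 0 := e1 ▸ smul_ne_zero B0 l2
  have h8 : (fun j => eval c.1.rep (F j)) ∈ Cone U := by
    refine (t1 _ _ h2).2 ?_
    filter_upwards [(t2 _ _ hp).1 ⟨c.1.rep_nonzero, c.1.mk_rep.symm ▸ c.2⟩, eventually_all.2 h3,
      Ultrafilter.eventually_not.2 (mt (b1.eval hp).2 B0),
      Ultrafilter.eventually_not.2 (mt (nz_tr h2).2 h7)] with k k1 k2 k3 k4
    have o := Cone.on sm.gen k1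
    obtain ⟨u, u0, hu⟩ := rep_mk k1.1
    have pp : Pp (Projectivization.mk ℂ _ k1.1).rep fun i => p i k := ⟨u, u0, hu⟩
    obtain ⟨x, x1, x2⟩ := hw k ⟨_, k1.2⟩
    refine ⟨k4, ?_⟩
    rwa [← a2_uni cv.ff x2 (cv1_red cv.ff o (fun y => (hP ⟨_, k1.2⟩ y).trans
      ⟨fun q => pp.symm.reg q, fun q => pp.reg q⟩) (fun j => f2 j k) (b2 k) k3 k4
      (l := aeval v (tm k (F' b)) / aeval v (tm k B')) fun j => by
        rw [div_mul_eq_mul_div, k2 j])]
  obtain ⟨h9, h10⟩ := h8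
  rwa [(Projectivization.mk_eq_mk_iff' ℂ _ _ h9 l2).2 ⟨_, e1.symm⟩] at h10

lemma key' (h : FFd L) {x : PS n} (hK : KB U x) {b : Fin n} (hb : x.rep b ≠ 0) {α : ℂ → Pl L}
    {ε : ℝ} (hε : 0 < ε) (hα : Arc α (ball 0 ε)) :
    ∃ δ M : ℝ, 0 < δ ∧ ∀ ξ : Fin n → L, ξ b = 1 → (∀ a, ξ a ∈ (α 0).V ∧
      (α 0).val (ξ a) = x.rep a / x.rep b) → (∀ s ∈ ball (0 : ℂ) ε, ∀ x', Red (α s) ξ x' → x' ∈ U) →
      ∀ s ∈ ball (0 : ℂ) δ, ∀ a, ξ a ∈ (α s).V ∧ ‖(α s).val (ξ a)‖ ≤ M := by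
  obtain ⟨η, M, h0, -, hM⟩ := hK b hb
  refine ⟨ε * η, M, mul_pos hε h0, fun ξ g1 g2 g3 s hs a => ?_⟩
  choose ρ hρ using fun P : Pl L => red_ex h P (y := ξ) (b := b) (by rw [g1]; exact one_ne_zero)
  have e0 : (ε : ℂ) ≠ 0 := by exact_mod_cast hε.ne'
  have h1 : Red (α 0) ξ x := by
    have h2 : (fun i => (α 0).val (1 * ξ i)) = (x.rep b)⁻¹ • x.rep := by
      funext i
      rw [one_mul, (g2 i).2, Pi.smul_apply, smul_eq_mul, div_eq_inv_mul]
    refine ⟨1, fun i => by rw [one_mul]; exact (g2 i).1,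
      by rw [h2]; exact smul_ne_zero (inv_ne_zero hb) x.rep_nonzero, ?_⟩
    refine x.mk_rep.symm.trans ((Projectivization.mk_eq_mk_iff' _ _ _ _ _).2 ⟨x.rep b, ?_⟩)
    rw [h2, smul_smul, mul_inv_cancel₀ hb, one_smul]
  have h3 := hM _ (holo h hε hα hρ) (fun t ht => g3 _ (by
      rw [mem_ball_zero_iff] at ht ⊢
      rw [norm_mul, Complex.norm_real, Real.norm_of_nonneg hε.le]
      exact mul_lt_of_lt_one_right hε ht) _ (hρ _))
    (by rw [mul_zero]; exact a2_uni h (hρ _) h1) (s / ε) (by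
      rw [mem_ball_zero_iff] at hs ⊢
      rw [norm_div, Complex.norm_real, Real.norm_of_nonneg hε.le, div_lt_iff₀' hε]
      exact hs)
  simp only [mul_div_cancel₀ s e0] at h3
  have h4 : (ρ (α s)).rep b ≠ 0 := fun q => (ρ (α s)).rep_nonzero (funext fun i => by
    have := h3 i
    rw [q, norm_zero, mul_zero] at this
    exact norm_le_zero_iff.1 this)
  have h5 := (red_ratio h _ (hρ (α s)) h4).2 a
  rw [g1, div_one] at h5
  refine ⟨h5.1, ?_⟩
  rw [h5.2, norm_div, div_le_iff₀ (norm_pos_iff.2 h4)]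
  exact h3 a

lemma lin_val {e : Fin N → ℂ} (he : ∀ i, θ (e i) = ↑(fun _ : ℕ => e i))
    {a : (Bool × Fin n) × Fin N → ℂ} {w : ℕ → (Bool × Fin n) × Fin N → ℂ}
    (ha : ∀ i, θ (a i) = pj 𝒰 fun k => w k i) (q : Bool × Fin n) :
    θ (eval a (E1.RigX.lf e q)) = pj 𝒰 fun k => eval (w k) (E1.RigX.lf e q) := by
  simp only [eval_lf]
  rw [show (fun k => ∑ i, w k (q, i) * e i) = ∑ i, (fun k => w k (q, i)) * fun _ => e i from
    funext fun k => by simp, map_sum, map_sum]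
  exact Finset.sum_congr rfl fun i _ => by rw [map_mul, map_mul, ha, he]; rfl

lemma div_tr {x y t : ℂ} {x' y' t' : ℕ → ℂ} (hx : θ x = pj 𝒰 x') (hy : θ y = pj 𝒰 y')
    (ht : θ t = pj 𝒰 t') (h0 : ∀ k, y' k ≠ 0) (h : ∀ k, x' k / y' k = t' k) :
    y ≠ 0 ∧ x / y = t := by
  have h1 : y ≠ 0 := fun q => by
    obtain ⟨k, hk⟩ := ((pj_zero hy).1 q).exists
    exact h0 k hk
  refine ⟨h1, (div_eq_iff h1).2 (θ.injective ?_)⟩
  rw [map_mul, hx, hy, ht, ← map_mul]
  exact congrArg _ (funext fun k => (div_eq_iff (h0 k)).1 (h k))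

end RigX

open RigX in
theorem rigO (hU : UltStmt) : RigOStmt := by
  classical
  intro n r U x C L _ _ v pl c d y hV hK sm cv hy hd hr
  have h := cv.ff
  obtain ⟨b, hb⟩ := Function.ne_iff.1 x.rep_nonzero
  have r := fun j => red_ratio h _ (hr j) hb
  obtain ⟨α, ε₀, hε₀, a0, hα₀, inj₀, -⟩ := sArcP L h (pl c)
  obtain ⟨ε, hε, e1, e2⟩ : ∃ ε, 0 < ε ∧ ε ≤ ε₀ ∧ ∀ s ∈ ball (0 : ℂ) ε, α s ∈ range pl := by
    have f1 : (ball (0 : ℂ) ε₀ ∩ α ⁻¹' (range pl)ᶜ).Finite :=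
      Finite.of_finite_image (cv.cof.subset (by rintro _ ⟨s, hs, rfl⟩; exact hs.2))
        (inj₀.mono inter_subset_left)
    obtain ⟨ε, hε, e⟩ := Metric.isOpen_iff.1 f1.isClosed.isOpen_compl 0
      fun q => q.2 ⟨c, a0.symm⟩
    exact ⟨min ε ε₀, lt_min hε hε₀, min_le_right _ _, fun s hs => by_contra fun q =>
      e (ball_subset_ball (min_le_left _ _) hs) ⟨ball_subset_ball (min_le_right _ _) hs, q⟩⟩
  have hα : Arc α (ball 0 ε) := fun s hs => hα₀ s (ball_subset_ball e1 hs)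
  have inj := inj₀.mono (ball_subset_ball e1)
  rw [← a0] at r
  obtain ⟨N, e, he, par⟩ := sParam L h (α 0) d
  have dg : ∀ j a, deg (y j a / y j b) ≤ d := fun j a => (deg_le_ht _ a b).trans (hd j)
  choose A B hA hAB using fun j a => par _ ((r j).2 a).1 (dg j a)
  let w : ℕ → (Bool × Fin n) × Fin N → ℂ := fun j k =>
    if k.1.1 then B j k.1.2 k.2 else A j k.1.2 k.2
  have w0 : ∀ j a, eval (w j) (E1.RigX.lf (fun i => (α 0).val (e i)) (false, a)) ≠ 0 :=
    fun j a => by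
      rw [eval_lf]
      exact hA j a
  have n0 := fun j a => (val_pt h _ he (w0 j a)).1
  have hp : ∀ j a, pt e (w j) a = y j a / y j b := fun j a => by
    rw [pt, div_eq_iff (n0 j a), ev_lf, ev_lf]
    exact (hAB j a).symm
  have w1 : ∀ j, pt e (w j) b = 1 := fun j => by rw [hp, div_self (r j).1]
  have w2 : ∀ j c', ∃ x' ∈ U, Red (pl c') (pt e (w j)) x' := fun j c' => by
    obtain ⟨x', x1, x2⟩ := hy j c'
    refine ⟨x', x1, a2_smul (l := y j b) ?_⟩
    rwa [show y j b • pt e (w j) = y j from funext fun a => by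
      rw [Pi.smul_apply, hp, smul_eq_mul, mul_div_cancel₀ _ (r j).1]]
  obtain ⟨δ, M, hδ, hM⟩ := key' h hK hb hε hα
  have hM' := fun j => hM (pt e (w j)) (w1 j) (fun a => hp j a ▸ (r j).2 a) fun s hs x' q => by
    obtain ⟨c', hc'⟩ := e2 s hs
    obtain ⟨x'', x1, x2⟩ := w2 j c'
    rwa [a2_uni h q (hc' ▸ x2)]
  obtain ⟨η, hη, hE⟩ := Metric.eventually_nhds_iff_ball.1
    (eventually_all.2 fun i => (hα 0 (mem_ball_self hε) _ (he i)).1)
  have hc : (⋃ j, ⋃ a, ball (0 : ℂ) ε ∩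
      α ⁻¹' {P | P.ord (ev (w j) (E1.RigX.lf e (false, a))) ≠ 0}).Countable :=
    countable_iUnion fun j => countable_iUnion fun a =>
      (Finite.of_finite_image ((h.b.fin _).subset (by rintro _ ⟨s, hs, rfl⟩; exact hs.2))
        (inj.mono inter_subset_left)).countable
  obtain ⟨T, hT, cT⟩ := (many (lt_min hε (lt_min hδ hη)) hc).exists_subset_card_eq (2 * d + 1)
  have t1 : ∀ s ∈ T, s ∈ ball (0 : ℂ) ε := fun s hs => ball_subset_ball (min_le_left _ _) (hT hs).1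
  have t2 : ∀ s ∈ T, s ∈ ball (0 : ℂ) δ := fun s hs =>
    ball_subset_ball ((min_le_right _ _).trans (min_le_left _ _)) (hT hs).1
  have t3 : ∀ s ∈ T, ∀ i, e i ∈ (α s).V := fun s hs =>
    hE s (ball_subset_ball ((min_le_right _ _).trans (min_le_right _ _)) (hT hs).1)
  have t4 : ∀ s ∈ T, ∀ j a, eval (w j) (E1.RigX.lf (fun i => (α s).val (e i)) (false, a)) ≠ 0 :=
    fun s hs j a q => by
      rw [← (val_lf h _ (t3 s hs) _ _).2, val_zero_iff h _ (val_lf h _ (t3 s hs) _ _).1] at q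
      exact (hT hs).2 (mem_iUnion.2 ⟨j, mem_iUnion.2
        ⟨a, t1 s hs, (q.resolve_left (n0 j a)).ne'⟩⟩)
  obtain ⟨S, S0, hS⟩ := good hV sm cv e
  have cst : ∀ k : T × Fin n, ∃ t, ∀ᶠ j in hyperfilter ℕ, (α k.1).val (pt e (w j) k.2) = t := by
    rintro ⟨⟨s, hs⟩, a⟩
    by_contra q
    obtain ⟨θ, u, θ1, θ2, θ3⟩ := hU (hyperfilter ℕ) (S ∪ (range (fun i => (α 0).val (e i)) ∪
      (range (fun i => (α s).val (e i)) ∪ range fun i => x.rep i / x.rep b)))
      (Option ((Bool × Fin n) × Fin N))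
      (fun o j => o.elim ((α s).val (pt e (w j) a)) (w j)) none M
      (S0.union ((countable_range _).union ((countable_range _).union (countable_range _))))
      fun t => Ultrafilter.eventually_not.2 fun q' => q ⟨t, q'⟩
    have u1 : ∀ i, θ (u (some i)) = pj _ fun j => w j i := fun i => θ2 (some i)
    have l0 := lin_val (fun i => θ1 _ (Or.inr (Or.inl ⟨i, rfl⟩))) u1
    have ls := lin_val (fun i => θ1 _ (Or.inr (Or.inr (Or.inl ⟨i, rfl⟩)))) u1
    have v0 := fun i => div_tr (l0 (true, i)) (l0 (false, i))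
      (θ1 _ (Or.inr (Or.inr (Or.inr ⟨i, rfl⟩)))) (fun j => w0 j i) fun j => by
        rw [← (val_pt h _ he (w0 j i)).2.2, hp]
        exact ((r j).2 i).2
    have vs := div_tr (ls (true, a)) (ls (false, a)) (θ2 none) (fun j => t4 s hs j a)
      fun j => (val_pt h _ (t3 s hs) (t4 s hs j a)).2.2.symm
    have p0 := fun i => val_pt h _ he (v0 i).1
    obtain ⟨g1, g2⟩ := hS _ θ (fun c q => θ1 c (Or.inl q)) _ w b u1 n0 (fun i => (p0 i).1) w1 w2
    have h1 := (hM _ g1 (fun i => ⟨(p0 i).2.1, (p0 i).2.2.trans (v0 i).2⟩) (fun s' hs' x' q => by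
      obtain ⟨c', hc'⟩ := e2 s' hs'
      exact g2 c' x' (hc' ▸ q)) s (t2 s hs) a).2
    rw [(val_pt h _ (t3 s hs) vs.1).2.2, vs.2] at h1
    exact h1.not_gt θ3
  choose t ht using cst
  obtain ⟨j, hj, j', hj', ne⟩ := Set.Infinite.nontrivial
    fun q => notMem_hyperfilter_of_finite q (eventually_all.2 ht)
  refine ⟨j, j', ne, y j b / y j' b, funext fun a => ?_⟩
  have h5 : y j a / y j b = y j' a / y j' b :=
    eq_of_vals h (dg j a) (dg j' a) (T.image α)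
      (by rw [Finset.card_image_of_injOn (inj.mono t1), cT]) fun P hP => by
        obtain ⟨s, hs, rfl⟩ := Finset.mem_image.1 hP
        rw [← hp, ← hp]
        exact ⟨(hM' j s (t2 s hs) a).1, (hM' j' s (t2 s hs) a).1,
          (hj (⟨s, hs⟩, a)).trans (hj' (⟨s, hs⟩, a)).symm⟩
  rw [div_eq_iff (r j).1] at h5
  rw [h5, Pi.smul_apply, smul_eq_mul]
  ring

end Pool.Agent.MP_c69980_ag.I4
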