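import Pool.Agent.MP_c69980_ag.I4.Base
import Pool.Agent.MP_c69980_ag.H66.Alg

/-!
Discs in the open surface lift to the model.
-/

set_option autoImplicit false

noncomputable section

namespace Pool.Agent.MP_c69980_ag.I4

open MvPolynomial Metric Filter Topology Set
open H60 H4 E1

namespace TrfX

variable {n n' : ℕ} {K : Type} [Field K] [Algebra ℂ K] {z : Fin n → K} {z' : Fin n' → K}
  {A : Fin n' → PR n} {d : ℕ} {γ : K}

/-- The map given by a tuple of polynomials. -/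
def mp (A : Fin n' → PR n) (y : V n) : V n' := fun i => eval y (A i)

lemma eval_sub (y : V n) (F : PR n') : eval y (aeval A F) = eval (mp A y) F := by
  induction F using MvPolynomial.induction_on with
  | C c => simp
  | add p q h1 h2 => simp only [map_add, h1, h2]
  | mul_X p i h => simp only [map_mul, h, aeval_X, eval_X, mp]

lemma aeval_sub (hA : ∀ i, aeval z (A i) = γ * z' i) {F : PR n'} {f : ℕ} (hF : F.IsHomogeneous f) :
    aeval z (aeval A F) = γ ^ f * aeval z' F := by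
  rw [← aeval_smul_hom hF, ← AlgHom.comp_apply, comp_aeval]
  exact congrArg (fun v => aeval v F) (funext hA)

lemma an (F : PR n) (y : V n) : AnalyticAt ℂ (fun w : V n => eval w F) y := by
  simpa [aeval_eq_eval] using
    AnalyticAt.aeval_mvPolynomial (analyticAt_pi_iff.1 (analyticAt_id (𝕜 := ℂ) (z := y))) F

lemma an_nrm (A : Fin n' → PR n) {y : V n} {j : Fin n'} (h : mp A y j ≠ 0) :
    AnalyticAt ℂ (fun w => nrm j (mp A w)) y :=
  ((an (A j) y).fun_inv h).fun_smul (analyticAt_pi_iff.2 fun i => an (A i) y)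

lemma mp_smul (hA : ∀ i, (A i).IsHomogeneous d) (t : ℂ) (y : V n) :
    mp A (t • y) = t ^ d • mp A y := funext fun i => eval_smul_hom (hA i) t y

variable {U : Set (PS n)} {x : ℂ → V n} {φ : ℂ → ℂ} {Ψ : ℂ → V n'}

lemma key (hz : GenPt U z) (hd : ∀ i, (A i).IsHomogeneous d) (hA : ∀ i, aeval z (A i) = γ * z' i)
    (hx : Dk U 0 1 x) (hφ : DifferentiableOn ℂ φ (ball 0 (3 / 4))) (h0 : φ 0 ≠ 0)
    (hΨ : DifferentiableOn ℂ Ψ (ball 0 (3 / 4)))
    (he : ∀ s ∈ ball (0 : ℂ) (3 / 4), mp A (x s) = φ s • Ψ s) {F F' : PR n'} {Q Q' : PR n}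
    {f g : ℕ} (hF : F.IsHomogeneous f) (hF' : F'.IsHomogeneous f) (hQ : Q.IsHomogeneous g)
    (hQ' : Q'.IsHomogeneous g) (h : aeval z' F * aeval z Q = aeval z' F' * aeval z Q') {s : ℂ}
    (hs : s ∈ ball (0 : ℂ) (3 / 4)) :
    eval (Ψ s) F * eval (x s) Q = eval (Ψ s) F' * eval (x s) Q' := by
  have sub : ball (0 : ℂ) (3 / 4) ⊆ ball 0 1 := ball_subset_ball (by norm_num)
  have hx' := hx.1.mono sub
  have c : ∀ (F : PR n') (Q : PR n), ContinuousAt (fun w => eval (Ψ w) F * eval (x w) Q) s :=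
    fun F Q => (((eval_diff hΨ F).mul (eval_diff hx' Q)).differentiableAt
      (isOpen_ball.mem_nhds hs)).continuousAt
  refine tendsto_nhds_unique_of_eventuallyEq (l := 𝓝[≠] s) ((c F Q).mono_left nhdsWithin_le_nhds)
    ((c F' Q').mono_left nhdsWithin_le_nhds) ?_
  filter_upwards [NZ.ev hφ ⟨0, mem_ball_self (by norm_num), h0⟩ hs,
    mem_nhdsWithin_of_mem_nhds (isOpen_ball.mem_nhds hs)] with w k1 k2
  have := Cone.on hz (hx.2 w (sub k2)) _ _ (((hF.aeval A hd).mul hQ).sub ((hF'.aeval A hd).mul hQ'))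
    (by rw [map_sub, map_mul, map_mul, aeval_sub hA hF, aeval_sub hA hF', mul_assoc, mul_assoc, h,
      sub_self])
  rw [map_sub, map_mul, map_mul, eval_sub, eval_sub, he w k2, eval_smul_hom hF, eval_smul_hom hF',
    mul_assoc, mul_assoc, sub_eq_zero] at this
  exact mul_left_cancel₀ (pow_ne_zero _ k1) this

variable {W : Set (PS n')} {π : PS n' → PS n} {m : ℕ} {E : Fin 2 → Derivation ℂ K K}
  {h : Fin 3 → K}

lemma cone (hz : GenPt U z) (ld : LDat U z W z' π m E h) {v : V n} {w : V n'} (hv : v ∈ Cone U)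
    (hw : w ≠ 0) (k : ∀ {F F' : PR n'} {Q Q' : PR n} {f g : ℕ}, F.IsHomogeneous f →
      F'.IsHomogeneous f → Q.IsHomogeneous g → Q'.IsHomogeneous g →
      aeval z' F * aeval z Q = aeval z' F' * aeval z Q' →
      eval w F * eval v Q = eval w F' * eval v Q') : w ∈ Cone {x ∈ W | π x ∈ U} := by
  have hW : Projectivization.mk ℂ w hw ∈ W := by
    obtain ⟨S, h1, h2⟩ := ld.1
    rw [h2]
    intro F hF
    obtain ⟨f, hf⟩ := h1 F hF
    have h3 := (ld.2.1.1 F f hf).2 fun P hP => by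
      rw [h2] at hP
      exact hP F hF
    have h4 := k hf (isHomogeneous_zero _ _ f) (isHomogeneous_one _ _) (isHomogeneous_one _ _)
      (by simp [h3])
    exact (eval_mk hf hw).2 (by simpa using h4)
  refine ⟨hw, hW, ?_⟩
  set y := Projectivization.mk ℂ w hw
  obtain ⟨c, hc⟩ := Function.ne_iff.1 (π y).rep_nonzero
  have hc' : eval (π y).rep (X c : PR n) ≠ 0 := by simpa using hc
  have o := on_rep hz (ld.2.2.2.2.2.2.2 y hW).2.1
  have o' := on_rep ld.2.1 (sub_zcl hW)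
  have zc : aeval z (X c : PR n) ≠ 0 := fun q => hc' (o _ _ (isHomogeneous_X _ _) q)
  obtain ⟨t, t0, ht⟩ := rep_mk hw
  have e : v = (v c / (π y).rep c) • (π y).rep := funext fun i => by
    obtain ⟨⟨F, G, f, hF, hG, a1, a2⟩, a3⟩ := dom hz ld hW
      ⟨X i, X c, 1, isHomogeneous_X _ _, isHomogeneous_X _ _, hc', rfl⟩
    rw [vl_eq o (isHomogeneous_X _ _) (isHomogeneous_X _ _) hc', a2, vl_eq o' hF hG a1] at a3
    rw [div_eq_div_iff zc fun q => a1 (o' _ _ hG q)] at a2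
    have a4 := k hF hG (isHomogeneous_X _ c) (isHomogeneous_X _ i) (by rw [← a2, mul_comm])
    rw [ht, eval_smul_hom hG] at a1
    rw [ht, eval_smul_hom hF, eval_smul_hom hG, mul_div_mul_left _ _ (pow_ne_zero _ t0),
      div_eq_div_iff (right_ne_zero_of_mul a1) hc'] at a3
    simp only [eval_X] at a3 a4
    rw [Pi.smul_apply, smul_eq_mul, div_mul_eq_mul_div, eq_div_iff hc]
    refine mul_left_cancel₀ (right_ne_zero_of_mul a1) ?_
    linear_combination v c * a3 - (π y).rep c * a4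
  obtain ⟨v0, hv⟩ := hv
  have : Projectivization.mk ℂ v v0 = π y := by
    rw [← (π y).mk_rep, Projectivization.mk_eq_mk_iff']
    exact ⟨_, e.symm⟩
  exact this ▸ hv

end TrfX

open TrfX in
theorem trf : TrfStmt := by
  intro n n' U W K _ _ z z' π m E h P e j j' hz ld hP P0 zj zj' hG
  obtain ⟨A, G, d, a1, -, a3, a4⟩ := rat hz z'
  obtain ⟨B, G', d', b1, -, b3, b4⟩ := rat ld.2.1 z
  have bj : ∀ i, aeval z (aeval A (B i)) = aeval z G ^ d' * (aeval z' G' * z i) := fun i => by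
    rw [aeval_sub a4 (b1 i), b4]
  refine ⟨A j' * aeval A P * aeval A (B j), _,
    ((a1 j').mul (hP.aeval A a1)).mul ((b1 j).aeval A a1), ?_, fun p hp => ?_⟩
  · rw [map_mul, map_mul, a4, aeval_sub a4 hP, bj]
    exact mul_ne_zero (mul_ne_zero (mul_ne_zero a3 zj') (mul_ne_zero (pow_ne_zero _ a3) P0))
      (mul_ne_zero (pow_ne_zero _ a3) (mul_ne_zero b3 zj))
  rw [map_mul, map_mul, eval_sub, eval_sub] at hp
  have p1 : mp A p j' ≠ 0 := left_ne_zero_of_mul (left_ne_zero_of_mul hp)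
  have p3 : mp B (nrm j' (mp A p)) j ≠ 0 := by
    rw [nrm, mp_smul b1]
    exact mul_ne_zero (pow_ne_zero _ (inv_ne_zero p1)) (right_ne_zero_of_mul hp)
  obtain ⟨ε', M, ε0, hM⟩ := hG (nrm j' (mp A p)) (by
    rw [nrm, eval_smul_hom hP]
    exact mul_ne_zero (pow_ne_zero _ (inv_ne_zero p1))
      (right_ne_zero_of_mul (left_ne_zero_of_mul hp)))
  have q1 := an_nrm B p3
  obtain ⟨C, hC⟩ := exists_gt ‖fderiv ℂ (fun w => nrm j (mp B w)) (nrm j' (mp A p))‖
  obtain ⟨ε, ε1, hε⟩ := Metric.eventually_nhds_iff.1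
    (((an (A j') p).continuousAt.eventually_ne p1).and
      ((an_nrm A p1).continuousAt.eventually (((an (B j) _).continuousAt.eventually_ne p3).and
        ((q1.fderiv.continuousAt.norm.eventually_lt continuousAt_const hC).and
          (ball_mem_nhds _ ε0)))))
  by_contra hn
  obtain ⟨x, x1, x2, x3, x4⟩ := not_good2 hn ε1 (C * (M / (3 / 4))) one_pos
  obtain ⟨c1, c2, c3, c4⟩ := hε ((dist_eq_norm _ p).symm ▸ x3)
  have m0 := mem_ball_self (x := (0 : ℂ)) one_pos
  have m1 : (0 : ℂ) ∈ ball (0 : ℂ) (3 / 4) := mem_ball_self (by norm_num)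
  have sub : ball (0 : ℂ) (3 / 4) ⊆ ball 0 1 := ball_subset_ball (by norm_num)
  obtain ⟨φ, Ψ, l1, l2, l3⟩ := H4.R1.lift n' (fun s => mp A (x s))
    (differentiableOn_pi.2 fun i => eval_diff x1.1 _) ⟨0, m0, Function.ne_iff.2 ⟨j', c1⟩⟩
  have c5 : φ 0 * Ψ 0 j' ≠ 0 := (congrFun (l3 0 m1) j').symm.trans_ne c1
  have c6 := right_ne_zero_of_mul c5
  have y0 : nrm j' (Ψ 0) = nrm j' (mp A (x 0)) := by
    rw [l3 0 m1, nrm_smul _ (left_ne_zero_of_mul c5)]
  have hb := hM 0 (3 / 4) (fun s => (Ψ 0 j')⁻¹ • Ψ s) (by norm_num)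
    ⟨l2.1.fun_const_smul _, fun s hs => by
      obtain ⟨w0, hw⟩ := cone hz ld (x1.2 s (sub hs)) (l2.2 s hs) fun hF hF' hQ hQ' k =>
        key hz a1 a4 x1 l1 (left_ne_zero_of_mul c5) l2.1 l3 hF hF' hQ hQ' k hs
      refine ⟨smul_ne_zero (inv_ne_zero c6) w0, ?_⟩
      rwa [(Projectivization.mk_eq_mk_iff' ℂ _ _ _ w0).2 ⟨_, rfl⟩]⟩
    (inv_mul_cancel₀ c6) (by
      change ‖nrm j' (Ψ 0) - _‖ < _
      rw [y0, ← dist_eq_norm]
      exact c4)
  simp only [nrm_smul _ (inv_ne_zero c6)] at hb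
  have dΨ := l2.1.differentiableAt (isOpen_ball.mem_nhds m1)
  have dx := x1.1.differentiableAt (isOpen_ball.mem_nhds m0)
  have dn := nrm_diff dΨ c6
  rw [← y0] at c2 c3
  have ee : (fun s => nrm j (x s)) =ᶠ[𝓝 0] (fun w => nrm j (mp B w)) ∘ fun s => nrm j' (Ψ s) := by
    filter_upwards [isOpen_ball.mem_nhds m1,
      (l1.differentiableAt (isOpen_ball.mem_nhds m1)).continuousAt.eventually_ne
        (left_ne_zero_of_mul c5),
      (differentiableAt_pi.1 dΨ j').continuousAt.eventually_ne c6,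
      (differentiableAt_pi.1 dx j).continuousAt.eventually_ne (x2.trans_ne one_ne_zero),
      dn.continuousAt.eventually ((an (B j) _).continuousAt.eventually_ne c2)] with s k1 k2 k3 k4 k5
    have k6 : mp B (nrm j' (Ψ s)) = (Ψ s j')⁻¹ ^ d' • mp B (Ψ s) := mp_smul b1 _ _
    have k7 : mp B (Ψ s) j ≠ 0 := right_ne_zero_of_mul ((congrFun k6 j).symm.trans_ne k5)
    rw [Function.comp_apply, k6, nrm_smul _ (pow_ne_zero _ (inv_ne_zero k3))]
    refine funext fun i => ?_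
    have := key hz a1 a4 x1 l1 (left_ne_zero_of_mul c5) l2.1 l3 (b1 i) (b1 j)
      (isHomogeneous_X _ j) (isHomogeneous_X _ i) (by rw [b4, b4, aeval_X, aeval_X]; ring) k1
    simp only [eval_X] at this
    simp only [nrm, Pi.smul_apply, smul_eq_mul]
    rw [inv_mul_eq_div, inv_mul_eq_div, div_eq_div_iff k4 k7, mul_comm]
    exact this.symm
  rw [ee.deriv_eq, ((an_nrm B c2).differentiableAt.hasFDerivAt.comp_hasDerivAt 0
    dn.hasDerivAt).deriv] at x4
  refine x4.not_ge ((ContinuousLinearMap.le_opNorm _ _).trans (mul_le_mul c3.le ?_ (norm_nonneg _)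
    ((norm_nonneg _).trans c3.le)))
  rw [le_div_iff₀ (by norm_num), mul_comm]
  exact hb

end Pool.Agent.MP_c69980_ag.I4
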