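import Pool.Agent.MP_c69980_ag.I4.Spec
import Pool.Agent.MP_c69980_ag.S60.Emb
import Pool.Agent.MP_c69980_ag.S63.Trf

/-!
Embeddings of the complex numbers in an ultrapower.
-/

set_option autoImplicit false

noncomputable section

namespace Pool.Agent.MP_c69980_ag.I4

open Filter Polynomial Cardinal

namespace UltX

variable (𝒰 : Ultrafilter ℕ)

theorem closed : IsAlgClosed (Germ (𝒰 : Filter ℕ) ℂ) := by
  refine IsAlgClosed.of_exists_root _ fun p hm hi => ?_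
  have hs : Function.Surjective (Germ.coeRingHom (𝒰 : Filter ℕ) : (ℕ → ℂ) →+* _) :=
    fun x => Germ.inductionOn x fun f => ⟨f, rfl⟩
  obtain ⟨P, hP, hd, hPm⟩ := lifts_and_natDegree_eq_and_monic (mem_lifts_of_surjective hs p) hm
  have h0 : 0 < P.natDegree := hd ▸ hi.natDegree_pos
  have hr : ∀ k, ∃ r : ℂ, (P.map (Pi.evalRingHom (fun _ : ℕ => ℂ) k)).IsRoot r := fun k =>
    IsAlgClosed.exists_root _ (natDegree_pos_iff_degree_pos.1 (by
      rw [hPm.natDegree_map]; exact h0)).ne'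
  choose r hr using hr
  have e : P.eval r = 0 := funext fun k =>
    (eval_map_apply (p := P) (Pi.evalRingHom (fun _ : ℕ => ℂ) k) r).symm.trans (hr k)
  refine ⟨Germ.coeRingHom _ r, ?_⟩
  rw [← hP, eval_map_apply, e, map_zero]

/-- The diagonal embedding. -/
def dg : ℂ →+* Germ (𝒰 : Filter ℕ) ℂ := (Germ.coeRingHom _).comp (Pi.constRingHom ℕ ℂ)

theorem trans (k : Subfield ℂ) (u : ℕ → ℂ) (hu : ∀ c, ∀ᶠ n in 𝒰, u n ≠ c) (p : k[X])
    (h : p.eval₂ ((dg 𝒰).comp k.subtype) (Germ.coeRingHom _ u) = 0) : p = 0 := by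
  classical
  by_contra hp
  rw [dg, RingHom.comp_assoc, ← hom_eval₂] at h
  have h1 : ∀ᶠ n in (𝒰 : Filter ℕ),
      p.eval₂ ((Pi.constRingHom ℕ ℂ).comp k.subtype) u n = 0 := Germ.coe_eq.1 h
  have hq : p.map k.subtype ≠ 0 := map_ne_zero hp
  have h2 : ∀ᶠ n in (𝒰 : Filter ℕ), ∀ c ∈ (p.map k.subtype).roots.toFinset, u n ≠ c :=
    (eventually_all_finset _).2 fun c _ => hu c
  obtain ⟨n, a, b⟩ := (h1.and h2).exists
  refine b (u n) (Multiset.mem_toFinset.2 ((mem_roots hq).2 ?_)) rfl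
  rw [IsRoot, eval_map, ← a]
  exact (hom_eval₂ p ((Pi.constRingHom ℕ ℂ).comp k.subtype)
    (Pi.evalRingHom (fun _ : ℕ => ℂ) n) u).symm

theorem big (k : Subfield ℂ) [Countable k] (M : ℝ) : ∃ t : ℂ, Transcendental k t ∧ M < ‖t‖ := by
  obtain ⟨t, h1, h2⟩ := ((Algebraic.countable k ℂ).dense_compl ℂ).exists_mem_open
    (U := {t : ℂ | M < ‖t‖}) (isOpen_lt continuous_const continuous_norm)
    ⟨((|M| + 1 : ℝ) : ℂ), by
      show M < ‖((|M| + 1 : ℝ) : ℂ)‖
      rw [Complex.norm_real]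
      exact ((le_abs_self M).trans_lt (lt_add_one _)).trans_le (le_abs_self _)⟩
  exact ⟨t, h1, h2⟩

end UltX

open UltX in
theorem ult : UltStmt := by
  intro 𝒰 s ι _ w i₀ M hs hw
  let k := Subfield.closure s
  have hk : (k : Set ℂ).Countable := H43.trf_cl hs
  have : Countable k := hk.to_subtype
  obtain ⟨t, ht, hM⟩ := big k M
  let c : (ℕ → ℂ) →+* Germ (𝒰 : Filter ℕ) ℂ := Germ.coeRingHom _
  let F := Subfield.closure (dg 𝒰 '' k ∪ Set.range fun i => c (w i))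
  have hF : Countable F :=
    (H43.trf_cl ((hk.image _).union (Set.countable_range _))).to_subtype
  have m1 : ∀ a : k, ((dg 𝒰).comp k.subtype) a ∈ F := fun a =>
    Subfield.subset_closure (Or.inl ⟨a, a.2, rfl⟩)
  have m2 : ∀ i, c (w i) ∈ F := fun i => Subfield.subset_closure (Or.inr ⟨i, rfl⟩)
  let g1 : k[X] →+* ℂ := eval₂RingHom k.subtype t
  let g2 : k[X] →+* F := eval₂RingHom (((dg 𝒰).comp k.subtype).codRestrict F m1) ⟨_, m2 i₀⟩
  have i1 : Function.Injective g1 := transcendental_iff_injective.1 ht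
  have i2 : Function.Injective g2 := (injective_iff_map_eq_zero g2).2 fun p hp =>
    trans 𝒰 k (w i₀) hw p ((hom_eval₂ p _ F.subtype _).symm.trans (congrArg F.subtype hp))
  let φ1 : FractionRing k[X] →+* ℂ := IsFractionRing.lift i1
  let φ2 : FractionRing k[X] →+* F := IsFractionRing.lift i2
  have hc : ℵ₀ < mk ℂ := by rw [mk_complex]; exact aleph0_lt_continuum
  obtain ⟨ψ, hψ⟩ : ∃ ψ : F →+* ℂ, ∀ p, ψ (g2 p) = g1 p := by
    let _ := φ1.toAlgebra
    let _ := φ2.toAlgebra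
    obtain ⟨ψ⟩ := H43.emb_field (FractionRing k[X]) F ℂ φ2.injective.countable hc
      (mk_le_aleph0.trans hc.le)
    refine ⟨ψ.toRingHom, fun p => ?_⟩
    rw [← IsFractionRing.lift_algebraMap (K := FractionRing k[X]) i1,
      ← IsFractionRing.lift_algebraMap (K := FractionRing k[X]) i2]
    exact ψ.commutes _
  obtain ⟨θ, hθ⟩ : ∃ θ : ℂ →+* Germ (𝒰 : Filter ℕ) ℂ, ∀ x : F, θ (ψ x) = x := by
    let _ := ψ.toAlgebra
    have := closed 𝒰
    have h1 : mk ℂ ≤ mk (Germ (𝒰 : Filter ℕ) ℂ) := mk_le_of_injective (dg 𝒰).injective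
    obtain ⟨θ⟩ := H43.emb_field F ℂ (Germ (𝒰 : Filter ℕ) ℂ) hF (hc.trans_le h1) h1
    exact ⟨θ.toRingHom, fun x => θ.commutes x⟩
  refine ⟨θ, fun i => ψ ⟨_, m2 i⟩, fun a ha => ?_, fun i => hθ _, ?_⟩
  · have e := hψ (C ⟨a, Subfield.subset_closure ha⟩)
    rw [coe_eval₂RingHom, coe_eval₂RingHom, eval₂_C, eval₂_C] at e
    exact (congrArg θ e).symm.trans (hθ _)
  · have e := hψ X
    rw [coe_eval₂RingHom, coe_eval₂RingHom, eval₂_X, eval₂_X] at e
    exact hM.trans_eq (congrArg norm e).symm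

end Pool.Agent.MP_c69980_ag.I4
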