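import Pool.Agent.MP_c69980_ag.I4.MainA
import Pool.Agent.MP_c69980_ag.E2.Main0
import Pool.Agent.MP_c69980_ag.I2.Asm

/-!
Surfaces of log-general type with a nonconstant map to an elliptic curve.
-/

set_option autoImplicit false

namespace Pool.Agent.MP_c69980_ag.I4

open H60 H4 E1

theorem mainE : E2.MainStmt := E2.main_of (I2.pS lat E2.aCov E2.aG E2.aCrit)

theorem all5 {n : ℕ} {U : Set (PS n)} (hU : IsVar U) {K : Type} [Field K] [Algebra ℂ K]
    {z : Fin n → K} (hz : GenPt U z) (h2 : Algebra.trdeg ℂ K = 2) (h4 : LogGT U z)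
    {L : PeriodPair} {u : U → PS 3} (hu : IsMor u) (hE : ∀ x, u x ∈ Ell L)
    (hc : ∃ x y, u x ≠ u y) :
    PseudoKob U ∧ PseudoBrody U ∧ H43.PseudoFin U ∧ PseudoBdd U :=
  all4 mainE hU hz h2 h4 hu hE hc

end Pool.Agent.MP_c69980_ag.I4
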