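import Pool.Agent.MP_c69980_ag.I4.Base
import Pool.Agent.MP_c69980_ag.E1.Lip
import Pool.Agent.MP_c69980_ag.E1.Ell
import Pool.Agent.MP_c69980_ag.E1.GainA

/-!
The Weierstrass cubic, and analytic maps from a punctured surface germ to an elliptic curve.
-/

set_option autoImplicit false

namespace Pool.Agent.MP_c69980_ag.I4

open MvPolynomial Metric Filter Topology Set PeriodPair
open H60 H4 E1

namespace WanX

variable (L : PeriodPair)

theorem th_ne (t : ℂ) : th L t ≠ 0 := fun e => by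
  by_cases h : t ∈ L.lattice
  · simpa [Ell.th_in L h] using congrFun e 1
  · simpa [Ell.th_out L h] using congrFun e 2

theorem cone (y : V 3) : y ∈ Cone (Ell L) ↔ ∃ t, Pp y (th L t) := by
  constructor
  · rintro ⟨h, t, h', e⟩
    obtain ⟨c, hc⟩ := (Projectivization.mk_eq_mk_iff' ℂ _ _ h h').1 e
    exact ⟨t, c, fun h0 => h (by rw [← hc, h0, zero_smul]), hc.symm⟩
  · rintro ⟨t, c, hc, rfl⟩
    exact ⟨smul_ne_zero hc (th_ne L t), t, th_ne L t,
      (Projectivization.mk_eq_mk_iff' ℂ _ _ _ _).2 ⟨c, rfl⟩⟩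

theorem wp_surj (x : ℂ) : ∃ z, z ∉ L.lattice ∧ ℘[L] z = x := by
  classical
  by_contra hn
  have h : ∀ z, z ∉ L.lattice → ℘[L] z - x ≠ 0 := fun z hz e => hn ⟨z, hz, sub_eq_zero.1 e⟩
  let f : ℂ → ℂ := fun z => if z ∈ L.lattice then 0 else (℘[L] z - x)⁻¹
  have hd : Differentiable ℂ f := fun t₀ => by
    by_cases ht : t₀ ∈ L.lattice
    · have a0 : AnalyticAt ℂ (fun t => (t - t₀) ^ 2 / (1 + (t - t₀) ^ 2 *
          (L.weierstrassPExcept t₀ t - 1 / t₀ ^ 2 - x))) t₀ :=
        AnalyticAt.div (by fun_prop) (by fun_prop) (by simp)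
      refine a0.differentiableAt.congr_of_eventuallyEq ?_
      filter_upwards [L.compl_lattice_sdiff_singleton_mem_nhds t₀] with t h1
      by_cases e : t = t₀
      · rw [e]; simp [f, ht]
      · have h2 : t - t₀ ≠ 0 := sub_ne_zero.2 e
        have h3 : t ∉ L.lattice := fun h3 => h1 ⟨h3, e⟩
        have h4 : 1 + (t - t₀) ^ 2 * (L.weierstrassPExcept t₀ t - 1 / t₀ ^ 2 - x) =
            (t - t₀) ^ 2 * (℘[L] t - x) := by
          rw [← L.weierstrassPExcept_add ⟨t₀, ht⟩]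
          have h5 : (t - t₀) ^ 2 * (1 / (t - t₀) ^ 2) = 1 := mul_one_div_cancel (pow_ne_zero _ h2)
          linear_combination -h5
        rw [h4, div_mul_cancel_left₀ (pow_ne_zero _ h2)]
        exact if_neg h3
    · have a0 : AnalyticAt ℂ (fun z => (℘[L] z - x)⁻¹) t₀ :=
        ((L.analyticOnNhd_weierstrassP t₀ ht).sub analyticAt_const).inv (h t₀ ht)
      exact a0.differentiableAt.congr_of_eventuallyEq
        ((Ell.near L ht).mono fun z hz => if_neg hz)
  obtain ⟨z, hz, -⟩ := ((lat L).2.1 1 0 one_ne_zero).exists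
  have e := hd.apply_eq_apply_of_bounded (IsZLattice.isCompact_range_of_periodic L.lattice f
    hd.continuous fun z w hw => by
      by_cases hz : z ∈ L.lattice
      · simp only [f, if_pos hz, if_pos (add_mem hz hw)]
      · have h1 : z + w ∉ L.lattice := fun h1 => hz (by simpa using sub_mem h1 hw)
        simp only [f, if_neg hz, if_neg h1, L.weierstrassP_add_coe z ⟨w, hw⟩]).isBounded z 0
  simp only [f, if_neg hz, if_pos (zero_mem _)] at e
  exact inv_ne_zero (h z hz) e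

theorem ev_cub (w : V 3) : eval w (cub L) =
    w 1 ^ 2 * w 2 - (4 * w 0 ^ 3 - L.g₂ * w 0 * w 2 ^ 2 - L.g₃ * w 2 ^ 3) := by
  simp [cub]

/-- The graph of the parametrisation. -/
def XE : Set (Pt 3) := {x | Pp x.2 (th L x.1)}

theorem cov : Cov L (Ell L) (XE L) where
  cn :=
    { nz := fun x ⟨c, hc, e⟩ => e ▸ smul_ne_zero hc (th_ne L _)
      scal := fun x hx c hc => Ell.pp_trans ⟨c, hc, rfl⟩ hx
      closed := fun x hx h0 => by
        by_contra hn
        have h1 := (continuous_swap.tendsto x).eventually (Ell.opn L lat h0 hn)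
        obtain ⟨y, h2, h3⟩ := ((mem_closure_iff_frequently.1 hx).and_eventually h1).exists
        exact h3 h2 }
  cone := cone L
  per := fun x hx l hl => by
    have e := Ell.th_sub L x.1 (neg_mem hl)
    rw [sub_neg_eq_add] at e
    change Pp x.2 (th L (x.1 + l))
    rwa [e]
  uniq := fun t t' y h h' => Ell.inj L lat t t' (Ell.pp_trans (Ell.pp_symm h) h')
  loc := fun x hx => by
    obtain ⟨τ, h1, h2, h3, h4⟩ := (ell lat L).2.2.2 x.1 x.2 hx
    exact ⟨τ, h1, h2, h3.mono fun y hy hc => hy ((cone L y).1 hc), h4⟩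

/-- On discs of a fixed size one coordinate dominates. -/
theorem unif (R : ℝ) : ∃ η K : ℝ, 0 < η ∧ 0 < K ∧ ∀ t₀ ∈ closedBall (0 : ℂ) R, ∃ j,
    ∀ t ∈ ball t₀ η, ∀ y, Pp y (th L t) → ‖y‖ ≤ K * ‖y j‖ := by
  refine (isCompact_closedBall (0 : ℂ) R).induction_on (p := fun s => ∃ η K : ℝ, 0 < η ∧ 0 < K ∧
    ∀ t₀ ∈ s, ∃ j, ∀ t ∈ ball t₀ η, ∀ y, Pp y (th L t) → ‖y‖ ≤ K * ‖y j‖)
    ⟨1, 1, one_pos, one_pos, fun _ h => h.elim⟩
    (fun s s' hs ⟨η, K, h1, h2, h3⟩ => ⟨η, K, h1, h2, fun t ht => h3 t (hs ht)⟩) ?_ ?_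
  · rintro s s' ⟨η, K, h1, h2, h3⟩ ⟨η', K', h1', h2', h3'⟩
    refine ⟨min η η', max K K', lt_min h1 h1', lt_max_of_lt_left h2, fun t₀ ht => ?_⟩
    rcases ht with ht | ht
    · exact (h3 t₀ ht).imp fun j hj t h4 y hy => (hj t (ball_subset_ball (min_le_left _ _) h4)
        y hy).trans (mul_le_mul_of_nonneg_right (le_max_left _ _) (norm_nonneg _))
    · exact (h3' t₀ ht).imp fun j hj t h4 y hy => (hj t (ball_subset_ball (min_le_right _ _) h4)
        y hy).trans (mul_le_mul_of_nonneg_right (le_max_right _ _) (norm_nonneg _))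
  · intro t₁ _
    obtain ⟨g, -, j, h1, h2, -, h4⟩ := Ell.loc L lat t₁
    have c1 := h1.continuousAt
    have c2 : ContinuousAt (fun t => ‖g t‖ / ‖g t j‖) t₁ :=
      c1.norm.div (continuousAt_pi.1 c1 j).norm (norm_ne_zero_iff.2 h2)
    obtain ⟨ε, hε, h5⟩ := Metric.eventually_nhds_iff_ball.1 (h4.and
      (((continuousAt_pi.1 c1 j).eventually_ne h2).and
        (c2.eventually_lt_const (lt_add_one (‖g t₁‖ / ‖g t₁ j‖)))))
    refine ⟨ball t₁ (ε / 2), mem_nhdsWithin_of_mem_nhds (ball_mem_nhds _ (half_pos hε)), ε / 2,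
      ‖g t₁‖ / ‖g t₁ j‖ + 1, half_pos hε, by positivity, fun t₀ ht => ⟨j, fun t h6 y hy => ?_⟩⟩
    have h7 : t ∈ ball t₁ ε := by
      rw [mem_ball] at *
      linarith [dist_triangle t t₀ t₁]
    obtain ⟨h8, h9, h10⟩ := h5 t h7
    obtain ⟨c, -, rfl⟩ := Ell.pp_trans hy h8
    rw [div_lt_iff₀ (norm_pos_iff.2 h9)] at h10
    rw [norm_smul, Pi.smul_apply, norm_smul, mul_left_comm]
    exact mul_le_mul_of_nonneg_left h10.le (norm_nonneg _)

theorem maxp {f : ℂ → ℂ} {c : ℂ} {ρ A : ℝ} (hρ : 0 < ρ)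
    (hf : ∀ s ∈ closedBall c ρ, DifferentiableAt ℂ f s) (hA : ∀ s ∈ sphere c ρ, ‖f s‖ ≤ A) :
    ∀ s ∈ closedBall c ρ, ‖f s‖ ≤ A := fun s hs =>
  Complex.norm_le_of_forall_mem_frontier_norm_le (U := ball c ρ) isBounded_ball
    (DifferentiableOn.diffContOnCl (by
      rw [closure_ball c hρ.ne']
      exact fun z hz => (hf z hz).differentiableWithinAt))
    (by rwa [frontier_ball c hρ.ne']) (by rwa [closure_ball c hρ.ne'])

end WanX

open WanX

theorem sur : SurStmt := by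
  intro L
  refine ⟨?_, fun w => ?_⟩
  · have h := fun i : Fin 3 => isHomogeneous_X ℂ i
    have c := fun a : ℂ => isHomogeneous_C (Fin 3) a
    exact (((h 1).pow 2).mul (h 2)).sub ((((c 4).mul ((h 0).pow 3)).sub
      (((c _).mul (h 0)).mul ((h 2).pow 2))).sub ((c _).mul ((h 2).pow 3)))
  rw [cone, ev_cub]
  constructor
  · rintro ⟨t, c, hc, rfl⟩
    refine ⟨smul_ne_zero hc (th_ne L t), ?_⟩
    by_cases ht : t ∈ L.lattice
    · simp [Ell.th_in L ht]
    · have e := L.derivWeierstrassP_sq t ht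
      simp only [Ell.th_out L ht, Pi.smul_apply, smul_eq_mul, Matrix.cons_val_zero,
        Matrix.cons_val_one, Matrix.cons_val]
      linear_combination c ^ 3 * e
  · rintro ⟨h0, e⟩
    by_cases h2 : w 2 = 0
    · have h3 : w 0 = 0 := by simpa [h2] using e
      have h4 : w = w 1 • th L 0 := by
        rw [Ell.th_in L (zero_mem _)]
        ext i
        fin_cases i <;> simp [h2, h3]
      exact ⟨0, w 1, fun h5 => h0 (by rw [h4, h5, zero_smul]), h4⟩
    · obtain ⟨z, hz, h3⟩ := wp_surj L (w 0 / w 2)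
      have h4 := L.derivWeierstrassP_sq z hz
      have h5 : (w 1 / w 2) ^ 2 = ℘'[L] z ^ 2 := by
        rw [h4, h3]
        field_simp
        linear_combination e
      have key : ∀ t, t ∉ L.lattice → ℘[L] t = w 0 / w 2 → ℘'[L] t = w 1 / w 2 →
          Pp w (th L t) := fun t h6 h7 h8 => ⟨w 2, h2, by
        rw [Ell.th_out L h6, h7, h8]
        ext i
        fin_cases i <;> simp [mul_div_cancel₀ _ h2]⟩
      rcases sq_eq_sq_iff_eq_or_eq_neg.1 h5 with h6 | h6
      · exact ⟨z, key z hz h3 h6.symm⟩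
      · exact ⟨-z, key _ (fun h7 => hz (by simpa using neg_mem h7))
          (by rw [L.weierstrassP_neg, h3]) (by rw [L.derivWeierstrassP_neg, h6])⟩

theorem wan : WanStmt := by
  rintro L F ⟨a, b⟩ hF hc
  obtain ⟨R, hR, h0⟩ := Metric.eventually_nhds_iff_ball.1
    (hF.eventually_analyticAt.and (eventually_nhdsWithin_iff.1 hc))
  obtain ⟨C, hC, hlip⟩ := lip lat 3 L _ _ (cov L)
  obtain ⟨RL, -, hRL⟩ := (lat L).1
  obtain ⟨η, K, hη, hK, hu⟩ := unif L RL
  set ρ := R / 2 with hρ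
  have ρ0 : 0 < ρ := half_pos hR
  have ρR : ρ < R := half_lt_self hR
  have hm : ∀ s ∈ ball a R, ∀ w ∈ closedBall b ρ, (s, w) ∈ ball ((a, b) : ℂ × ℂ) R :=
    fun s hs w hw => by
      rw [← ball_prod_same]
      exact ⟨hs, closedBall_subset_ball ρR hw⟩
  have hsp : ∀ δ : ℝ, 0 < δ → δ ≤ ρ → ∀ p ∈ sphere a δ ×ˢ closedBall b ρ,
      AnalyticAt ℂ F p ∧ F p ≠ 0 := fun δ h1 h2 p hp => by
    have h3 := h0 p (hm p.1 (sphere_subset_ball (h2.trans_lt ρR) hp.1) p.2 hp.2)
    exact ⟨h3.1, (h3.2 fun e => ne_of_mem_sphere hp.1 h1.ne' (congrArg Prod.fst e)).1⟩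
  have hk : ∀ δ : ℝ, IsCompact (sphere a δ ×ˢ closedBall b ρ) := fun δ =>
    (isCompact_sphere a δ).prod (isCompact_closedBall b ρ)
  obtain ⟨A, hA⟩ := (hk ρ).exists_bound_of_continuousOn
    (f := fun p => lamv (F p) (fderiv ℂ F p (1, 0))) fun p hp => by
      obtain ⟨h1, h2⟩ := hsp ρ ρ0 le_rfl p hp
      exact ((lamv_cont h2 _).comp_of_eq (f := fun p => (F p, fderiv ℂ F p (1, 0)))
        (h1.continuousAt.prodMk (h1.fderiv.continuousAt.clm_apply continuousAt_const))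
        rfl).continuousWithinAt
  set M := √(C * A) + 1 with hM
  have M0 : 0 < M := by positivity
  set δ := min ρ (η / (2 * M)) with hδ
  have δ0 : 0 < δ := lt_min ρ0 (by positivity)
  have δρ : δ ≤ ρ := min_le_left _ _
  have δη : M * δ < η := by
    have h1 : δ ≤ η / (2 * M) := min_le_right _ _
    rw [le_div_iff₀ (by positivity)] at h1
    linarith
  obtain ⟨B, hB⟩ := (hk δ).exists_bound_of_continuousOn (f := fun p => ‖F p‖⁻¹) fun p hp => by
    obtain ⟨h1, h2⟩ := hsp δ δ0 δρ p hp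
    exact (h1.continuousAt.norm.inv₀ (norm_ne_zero_iff.2 h2)).continuousWithinAt
  have key : ∀ w ∈ closedBall b ρ, w ≠ b → 1 ≤ K * B * ‖F (a, w)‖ := fun w hw hwb => by
    have h1 : ∀ s ∈ ball a R, HasDerivAt (fun s => F (s, w)) (fderiv ℂ F (s, w) (1, 0)) s :=
      fun s hs => (h0 _ (hm s hs w hw)).1.differentiableAt.hasFDerivAt.comp_hasDerivAt s
        ((hasDerivAt_id s).prodMk (hasDerivAt_const s w))
    have h2 : ∀ s ∈ ball a R, F (s, w) ∈ Cone (Ell L) := fun s hs =>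
      (h0 _ (hm s hs w hw)).2 fun e => hwb (congrArg Prod.snd e)
    obtain ⟨h, hh⟩ := nrm lat 3 L _ _ (cov L) (fun s => F (s, w)) a R
      ⟨fun s hs => (h1 s hs).differentiableAt.differentiableWithinAt, h2⟩
    have an := hh.2.1.analyticOnNhd isOpen_ball
    have h3 : ∀ s ∈ closedBall a ρ, ‖deriv h s‖ ≤ M := by
      refine maxp ρ0 (fun s hs => (an.deriv s (closedBall_subset_ball ρR hs)).differentiableAt)
        fun s hs => ?_
      have hs' := sphere_subset_ball ρR hs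
      have h4 := hlip _ _ h isOpen_ball hh s hs'
      have h5 := (le_abs_self _).trans (hA (s, w) ⟨hs, hw⟩)
      rw [lam, (h1 s hs').deriv] at h4
      have h6 := Real.le_sqrt_of_sq_le (h4.trans (mul_le_mul_of_nonneg_left h5 hC.le))
      linarith
    obtain ⟨l, hl, h4⟩ := hRL (h a)
    obtain ⟨j, hj⟩ := hu (h a - l) (mem_closedBall_zero_iff.2 h4)
    have hsub : closedBall a δ ⊆ ball a R := closedBall_subset_ball (δρ.trans_lt ρR)
    have h5 : ∀ s ∈ closedBall a δ, ‖F (s, w)‖ ≤ K * ‖F (s, w) j‖ := fun s hs => by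
      refine hj (h s - l) ?_ _ (by rw [Ell.th_sub L _ hl]; exact hh.2.2 s (hsub hs))
      have h6 := (convex_closedBall a ρ).norm_image_sub_le_of_norm_deriv_le
        (fun x hx => (an x (closedBall_subset_ball ρR hx)).differentiableAt) h3
        (mem_closedBall_self ρ0.le) (closedBall_subset_closedBall δρ hs)
      rw [mem_ball, dist_eq_norm, sub_sub_sub_cancel_right]
      exact (h6.trans (mul_le_mul_of_nonneg_left (mem_closedBall_iff_norm.1 hs) M0.le)).trans_lt δη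
    have h6 : ∀ s ∈ closedBall a δ, 0 < ‖F (s, w) j‖ := fun s hs =>
      (mul_pos_iff_of_pos_left hK).1 ((norm_pos_iff.2 (h2 s (hsub hs)).1).trans_le (h5 s hs))
    have h7 := maxp (f := fun s => (F (s, w) j)⁻¹) (A := K * B) δ0
      (fun s hs => (hasDerivAt_pi.1 (h1 s (hsub hs)) j).differentiableAt.inv
        (norm_pos_iff.1 (h6 s hs))) (fun s hs => by
        have hs' := sphere_subset_closedBall hs
        have h8 : ‖F (s, w)‖⁻¹ ≤ B := (le_abs_self _).trans (hB (s, w) ⟨hs, hw⟩)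
        have h9 := norm_pos_iff.2 (h2 s (hsub hs')).1
        rw [inv_le_iff_one_le_mul₀ h9] at h8
        rw [norm_inv, inv_le_iff_one_le_mul₀ (h6 s hs')]
        have h10 : 0 ≤ B := ((mul_pos_iff_of_pos_right h9).1 (one_pos.trans_le h8)).le
        nlinarith [mul_le_mul_of_nonneg_left (h5 s hs') h10]) a (mem_closedBall_self δ0.le)
    have h8 := h6 a (mem_closedBall_self δ0.le)
    rw [norm_inv, inv_le_iff_one_le_mul₀ h8] at h7
    exact h7.trans (mul_le_mul_of_nonneg_left (norm_le_pi_norm _ j)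
      ((mul_pos_iff_of_pos_right h8).1 (one_pos.trans_le h7)).le)
  have c1 : ContinuousAt (fun w => K * B * ‖F (a, w)‖) b :=
    continuousAt_const.mul (hF.continuousAt.comp_of_eq (f := fun w : ℂ => (a, w))
      (by fun_prop) rfl).norm
  have h1 : 1 ≤ K * B * ‖F (a, b)‖ := ge_of_tendsto (x := 𝓝[≠] b)
    (c1.tendsto.mono_left nhdsWithin_le_nhds) (by
      filter_upwards [mem_nhdsWithin_of_mem_nhds (closedBall_mem_nhds b ρ0), self_mem_nhdsWithin]
        with w h2 h3 using key w h2 h3)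
  intro e
  rw [e, norm_zero, mul_zero] at h1
  exact absurd h1 (by norm_num)

end Pool.Agent.MP_c69980_ag.I4
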