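import Pool.Agent.MP_c69980_ag.I4.Base

/-!
Morphisms to projective space and their generic values.
-/

set_option autoImplicit false

noncomputable section

namespace Pool.Agent.MP_c69980_ag.I4

open MvPolynomial Metric Filter Topology Set
open H60 H4 E1

namespace XiX

variable {n N : ℕ} {K : Type} [Field K] [Algebra ℂ K] {z : Fin n → K} {U : Set (PS n)}

lemma mk_eq {y c : V N} (hy : y ≠ 0) (hc : c ≠ 0) (h : ∀ a b, c a * y b = c b * y a) :
    Projectivization.mk ℂ y hy = Projectivization.mk ℂ c hc := by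
  obtain ⟨j, hj⟩ := Function.ne_iff.1 hc
  have hj' : c j ≠ 0 := hj
  refine (Projectivization.mk_eq_mk_iff' ℂ _ _ _ _).2 ⟨y j / c j, funext fun b => ?_⟩
  rw [Pi.smul_apply, smul_eq_mul, div_mul_eq_mul_div, div_eq_iff hj']
  linear_combination h b j

lemma ev_ae (y : V n) (F : Fin N → PR n) (Φ : PR N) :
    eval y (aeval F Φ) = eval (fun j => eval y (F j)) Φ := by
  induction Φ using MvPolynomial.induction_on with
  | C a => simp
  | add p q hp hq => rw [map_add, map_add, map_add, hp, hq]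
  | mul_X p i hp => rw [map_mul, map_mul, map_mul, hp, aeval_X, eval_X]

lemma ae_ae (F : Fin N → PR n) (Φ : PR N) :
    aeval z (aeval F Φ) = aeval (fun j => aeval z (F j)) Φ := by
  induction Φ using MvPolynomial.induction_on with
  | C a => simp
  | add p q hp hq => rw [map_add, map_add, map_add, hp, hq]
  | mul_X p i hp => rw [map_mul, map_mul, map_mul, hp, aeval_X, aeval_X]

/-- A form that vanishes on a nonempty open part vanishes at the generic point. -/
lemma dense (hz : GenPt U z) {g H : PR n} {e d : ℕ} (hg : g.IsHomogeneous e)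
    (hH : H.IsHomogeneous d) (h0 : aeval z g ≠ 0)
    (h : ∀ Q : U, eval Q.1.rep g ≠ 0 → eval Q.1.rep H = 0) : aeval z H = 0 := by
  have := (hz.1 _ _ (hg.mul hH)).2 fun Q hQ => by
    rw [map_mul]
    by_cases q : eval Q.rep g = 0
    · rw [q, zero_mul]
    · rw [h ⟨Q, hQ⟩ q, mul_zero]
  rw [map_mul] at this
  exact (mul_eq_zero.1 this).resolve_left h0

lemma ne_of (hz : GenPt U z) {g : PR n} {e : ℕ} (hg : g.IsHomogeneous e) (P : U)
    (h : eval P.1.rep g ≠ 0) : aeval z g ≠ 0 := fun q => h ((hz.1 g e hg).1 q P.1 P.2)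

/-- Common denominators at a point. -/
lemma den {y : V n} (hy : On z y) {w : Fin N → K} (h : ∀ i, Reg z y (w i)) :
    ∃ (A : Fin N → PR n) (G : PR n) (d : ℕ), (∀ i, (A i).IsHomogeneous d) ∧ G.IsHomogeneous d ∧
      eval y G ≠ 0 ∧ ∀ i, w i = aeval z (A i) / aeval z G := by
  classical
  choose F G d hF hG h0 e using h
  refine ⟨fun i => F i * ∏ k ∈ Finset.univ.erase i, G k, ∏ k, G k, ∑ k, d k, fun i => ?_,
    IsHomogeneous.prod _ _ _ fun k _ => hG k, ?_, fun i => ?_⟩
  · rw [← Finset.add_sum_erase _ _ (Finset.mem_univ i)]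
    exact (hF i).mul (IsHomogeneous.prod _ _ _ fun k _ => hG k)
  · rw [map_prod]
    exact Finset.prod_ne_zero_iff.2 fun k _ => h0 k
  · rw [← Finset.mul_prod_erase _ _ (Finset.mem_univ i), map_mul, map_mul, e i,
      mul_div_mul_right]
    rw [map_prod]
    exact Finset.prod_ne_zero_iff.2 fun k _ q => h0 k (hy _ _ (hG k) q)

lemma cross {y : V n} (hy : On z y) {ξ : Fin N → K} {l l' : K} (h : ∀ i, Reg z y (l * ξ i))
    (h' : ∀ i, Reg z y (l' * ξ i)) (a b : Fin N) :
    vl z (l * ξ a) y * vl z (l' * ξ b) y = vl z (l * ξ b) y * vl z (l' * ξ a) y := by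
  rw [← (vl_mul hy (h a) (h' b)).2, ← (vl_mul hy (h b) (h' a)).2]
  exact congrArg (fun t => vl z t y) (by ring)

end XiX

open XiX

theorem xiU : XiUStmt := by
  intro n N U K _ _ z u hz hu ⟨x, y, hxy⟩
  obtain ⟨d, e, g, F, hg, hF, h0, h1⟩ := hu x
  have g0 := ne_of hz hg x h0
  refine ⟨fun j => aeval z (F j), ?_, fun Φ k hΦ h => ?_⟩
  · rintro ⟨c, l, hc⟩
    obtain ⟨j, hj⟩ := Function.ne_iff.1 (h1 x h0).1
    have c0 : c ≠ 0 := fun q => ne_of hz (hF j) x hj (by simpa [q] using hc j)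
    have key : ∀ Q, u Q = Projectivization.mk ℂ c c0 := fun Q => by
      obtain ⟨d', e', g', F', hg', hF', h0', h1'⟩ := hu Q
      obtain ⟨q0, q1⟩ := h1' Q h0'
      rw [q1]
      refine mk_eq _ _ fun a b => ?_
      have hΦ : (C (c a) * X b - C (c b) * X a : PR N).IsHomogeneous 1 :=
        (isHomogeneous_C_mul_X _ _).sub (isHomogeneous_C_mul_X _ _)
      have a1 : aeval z (aeval F (C (c a) * X b - C (c b) * X a : PR N)) = 0 := by
        rw [ae_ae]
        simp only [map_sub, map_mul, aeval_C, aeval_X]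
        rw [show aeval z (F a) = _ from hc a, show aeval z (F b) = _ from hc b]
        ring
      have a2 := dense hz (hg.mul hg') (hΦ.aeval F' hF')
        (by rw [map_mul]; exact mul_ne_zero g0 (ne_of hz hg' Q h0')) fun R hR => by
          rw [map_mul] at hR
          obtain ⟨r0, r1⟩ := h1 R (left_ne_zero_of_mul hR)
          obtain ⟨r2, r3⟩ := h1' R (right_ne_zero_of_mul hR)
          have := (hz.1 _ _ (hΦ.aeval F hF)).1 a1 R.1 R.2
          rw [ev_ae, ← eval_mk hΦ r0, ← r1, r3, eval_mk hΦ] at this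
          rw [ev_ae, this]
      have a3 := (hz.1 _ _ (hΦ.aeval F' hF')).1 a2 Q.1 Q.2
      rw [ev_ae] at a3
      simpa [sub_eq_zero] using a3
    exact hxy ((key x).trans (key y).symm)
  · rw [← ae_ae]
    refine dense hz hg (hΦ.aeval F hF) g0 fun R hR => ?_
    obtain ⟨r0, r1⟩ := h1 R hR
    rw [ev_ae, ← eval_mk hΦ r0, ← r1]
    exact h R

theorem xiW : XiWStmt := by
  intro n N W K _ _ z ξ hz hn hd
  choose l l0 lr lv using fun x : W => hd x.1 x.2
  have on : ∀ x : W, On z x.1.rep := fun x => on_rep hz (sub_zcl x.2)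
  have v0 : ∀ x : W, (fun i => vl z (l x * ξ i) x.1.rep) ≠ 0 := fun x =>
    Function.ne_iff.2 (lv x)
  have loc : ∀ P : W, ∃ (d e : ℕ) (g : PR n) (F : Fin N → PR n) (μ : K), g.IsHomogeneous e ∧
      (∀ j, (F j).IsHomogeneous d) ∧ eval P.1.rep g ≠ 0 ∧ (∀ Q : W, eval Q.1.rep g ≠ 0 →
        ∃ h : (fun j => eval Q.1.rep (F j)) ≠ 0,
          Projectivization.mk ℂ _ (v0 Q) = Projectivization.mk ℂ _ h) ∧
      μ ≠ 0 ∧ ∀ j, aeval z (F j) = μ * ξ j := fun P => by
    obtain ⟨F, G, d, hF, hG, h0, e⟩ := den (on P) (lr P)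
    obtain ⟨i, hi⟩ := lv P
    have G0 := ne_of hz hG P h0
    refine ⟨d, _, G * F i, F, aeval z G * l P, hG.mul (hF i), hF, ?_, fun Q hQ => ?_,
      mul_ne_zero G0 (l0 P), fun j => by rw [mul_assoc, e j, mul_div_cancel₀ _ G0]⟩
    · rw [e i, vl_eq (on P) (hF i) hG h0] at hi
      rw [map_mul]
      exact mul_ne_zero h0 fun q => hi (by rw [q, zero_div])
    · rw [map_mul] at hQ
      have q1 := left_ne_zero_of_mul hQ
      refine ⟨Function.ne_iff.2 ⟨i, right_ne_zero_of_mul hQ⟩, mk_eq _ _ fun a b => ?_⟩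
      have := cross (on Q) (l := l P) (fun j => ⟨F j, G, d, hF j, hG, q1, e j⟩) (lr Q) a b
      rw [e a, e b, vl_eq (on Q) (hF a) hG q1, vl_eq (on Q) (hF b) hG q1, div_mul_eq_mul_div,
        div_mul_eq_mul_div, div_left_inj' q1] at this
      exact this
  refine ⟨fun x => Projectivization.mk ℂ _ (v0 x), fun P => ?_, ?_, fun Φ k hΦ h x => ?_⟩
  · obtain ⟨d, e, g, F, -, a1, a2, a3, a4, -⟩ := loc P
    exact ⟨d, e, g, F, a1, a2, a3, a4⟩
  · by_contra hc
    obtain ⟨x, hx⟩ := gen_ne hz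
    obtain ⟨d, e, g, F, μ, a1, a2, a3, a4, a5, a6⟩ := loc ⟨x, hx⟩
    obtain ⟨p0, p1⟩ := a4 _ a3
    obtain ⟨i, hi⟩ := Function.ne_iff.1 p0
    have hi' : eval x.rep (F i) ≠ 0 := hi
    refine hn ⟨fun j => eval x.rep (F j), ξ i / algebraMap ℂ K (eval x.rep (F i)), fun b => ?_⟩
    have := dense hz a1 (((a2 b).C_mul (eval x.rep (F i))).sub ((a2 i).C_mul (eval x.rep (F b))))
      (ne_of hz a1 ⟨x, hx⟩ a3) fun Q hQ => by
        obtain ⟨q0, q1⟩ := a4 Q hQ
        have e1 : Projectivization.mk ℂ _ (v0 Q) = Projectivization.mk ℂ _ (v0 ⟨x, hx⟩) :=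
          by_contra fun q => hc ⟨Q, ⟨x, hx⟩, q⟩
        obtain ⟨t, ht⟩ := (Projectivization.mk_eq_mk_iff' ℂ _ _ _ _).1 (q1.symm.trans (e1.trans p1))
        have b1 : t * eval x.rep (F b) = eval Q.1.rep (F b) := congrFun ht b
        have b2 : t * eval x.rep (F i) = eval Q.1.rep (F i) := congrFun ht i
        simp only [map_sub, map_mul, eval_C]
        rw [← b1, ← b2]
        ring
    simp only [map_sub, map_mul, aeval_C, a6] at this
    rw [div_mul_eq_mul_div, eq_div_iff ((map_ne_zero _).2 hi')]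
    exact mul_left_cancel₀ a5 (by linear_combination this)
  · rw [eval_mk hΦ, ← (vl_aeval (on x) (lr x) Φ).2,
      show (aeval fun i => l x * ξ i) Φ = 0 from
        (aeval_smul_hom hΦ (l x) ξ).trans (by rw [h, mul_zero])]
    exact (vl_zero (on x)).2

end Pool.Agent.MP_c69980_ag.I4
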