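import Pool.Agent.MP_c69980_ag.I4.Fin
import Pool.Agent.MP_c69980_ag.I4.Wan
import Pool.Agent.MP_c69980_ag.I4.Ext
import Pool.Agent.MP_c69980_ag.I4.Xi
import Pool.Agent.MP_c69980_ag.E1.WC
import Pool.Agent.MP_c69980_ag.E2.SpecB

/-!
Surfaces of log-general type with a nonconstant morphism to an elliptic curve.
-/

set_option autoImplicit false

namespace Pool.Agent.MP_c69980_ag.I4

open MvPolynomial H60 H4 E1

theorem all4 (hM : E2.MainStmt) {n : ℕ} {U : Set (PS n)} (hU : IsVar U) {K : Type} [Field K]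
    [Algebra ℂ K] {z : Fin n → K} (hz : GenPt U z) (h2 : Algebra.trdeg ℂ K = 2) (h4 : LogGT U z)
    {L : PeriodPair} {u : U → PS 3} (hu : IsMor u) (hE : ∀ x, u x ∈ Ell L)
    (hc : ∃ x y, u x ≠ u y) : PseudoKob U ∧ PseudoBrody U ∧ H43.PseudoFin U ∧ PseudoBdd U := by
  obtain ⟨n', W, z', π, k, m, E, h, ld⟩ := h4
  obtain rfl : k = 2 := Nat.cast_injective (R := Cardinal) (ld.2.2.1.symm.trans h2)
  replace ld : LDat U z W z' π m E h := ld
  have key : ∀ p : PS 3, p ∈ Ell L ↔ eval p.rep (cub L) = 0 := fun p =>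
    ⟨fun q => (((sur L).2 _).1 ⟨p.rep_nonzero, p.mk_rep.symm ▸ q⟩).2, fun q => by
      obtain ⟨_, a⟩ := ((sur L).2 _).2 ⟨p.rep_nonzero, q⟩
      rwa [p.mk_rep] at a⟩
  obtain ⟨ξ, x1, x2⟩ := xiU n 3 U K z u hz hu hc
  have x3 := x2 _ _ (sur L).1 fun x => (key _).1 (hE x)
  obtain ⟨u', u1, u2, u3⟩ := xiW n' 3 W K z' ξ ld.2.1 x1 (ext sur wan walg n' W K z' L ξ ld.2.1
    (rg2 ld) (wc n' W (smo_of ld)) (fun q => x1 ⟨0, 0, fun i => by simp [q]⟩) x3)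
  obtain ⟨T, e, t1, t2, t3⟩ := hM K n' ⟨W, _, z', E, m, h, L, u', smo_of ld, fun _ q => q.1,
    ld_open ld, u1, fun x => (key _).2 (u3 _ _ (sur L).1 x3 x), u2⟩
  exact fin hU hz ld t1 t2 t3

end Pool.Agent.MP_c69980_ag.I4
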