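import Pool.Agent.MP_c69980_ag.I4.Base
import Pool.Agent.MP_c69980_ag.E1.Rig
import Pool.Agent.MP_c69980_ag.S41.Cv1

/-!
Transfer of algebraic conditions along an embedding of `ℂ` in an ultrapower.
-/

set_option autoImplicit false

noncomputable section

namespace Pool.Agent.MP_c69980_ag.I4.RigX

open MvPolynomial Filter Set
open H60 H43 E1 E1.RigX

variable {𝒰 : Ultrafilter ℕ} {θ : ℂ →+* Germ (𝒰 : Filter ℕ) ℂ} {σ : Type}

/-- The class of a sequence. -/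
def pj (𝒰 : Ultrafilter ℕ) : (ℕ → ℂ) →+* Germ (𝒰 : Filter ℕ) ℂ := Germ.coeRingHom _

lemma pj_zero {f : ℕ → ℂ} {c : ℂ} (h : θ c = pj 𝒰 f) : c = 0 ↔ ∀ᶠ k in 𝒰, f k = 0 := by
  rw [← map_eq_zero_iff θ θ.injective, h]
  exact Germ.coe_eq (g := 0)

/-- The `k`-th term of a polynomial with coefficients in sequences. -/
def tm (k : ℕ) : MvPolynomial σ (ℕ → ℂ) →+* MvPolynomial σ ℂ := map (Pi.evalRingHom _ k)

/-- `G'` represents the image of `G`. -/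
def Rp (θ : ℂ →+* Germ (𝒰 : Filter ℕ) ℂ) (G : MvPolynomial σ ℂ) (G' : MvPolynomial σ (ℕ → ℂ)) :
    Prop := map θ G = map (pj 𝒰) G'

lemma Rp.eval {G : MvPolynomial σ ℂ} {G' : MvPolynomial σ (ℕ → ℂ)} (h : Rp θ G G') {p : σ → ℂ}
    {p' : σ → ℕ → ℂ} (hp : ∀ i, θ (p i) = pj 𝒰 (p' i)) :
    eval p G = 0 ↔ ∀ᶠ k in 𝒰, eval (fun i => p' i k) (tm k G') = 0 := by
  have h1 : θ (MvPolynomial.eval p G) = pj 𝒰 (MvPolynomial.eval p' G') := by
    rw [map_eval, map_eval, h]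
    exact congrArg (fun u => MvPolynomial.eval u _) (funext hp)
  rw [pj_zero h1]
  exact eventually_congr (.of_forall fun k => by
    rw [show MvPolynomial.eval p' G' k = _ from map_eval (Pi.evalRingHom _ k) p' G']
    rfl)

lemma rp_ex (θ : ℂ →+* Germ (𝒰 : Filter ℕ) ℂ) {G : MvPolynomial σ ℂ} {d : ℕ}
    (hG : G.IsHomogeneous d) : ∃ G', Rp θ G G' ∧ ∀ k, (tm k G').IsHomogeneous d := by
  classical
  have h1 : ∀ c, ∃ f, θ c = pj 𝒰 f := fun c => by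
    obtain ⟨f, hf⟩ := Quot.exists_rep (θ c)
    exact ⟨f, hf.symm⟩
  choose ρ hρ using h1
  refine ⟨∑ m ∈ G.support, monomial m (ρ (coeff m G)), ?_, fun k => ?_⟩
  · rw [Rp, map_sum]
    conv_lhs => rw [G.as_sum, map_sum]
    exact Finset.sum_congr rfl fun m _ => by rw [map_monomial, map_monomial, hρ]
  · rw [map_sum]
    refine IsHomogeneous.sum _ _ _ fun m hm => ?_
    rw [tm, map_monomial]
    refine isHomogeneous_monomial _ ?_
    rw [Finsupp.degree_eq_weight_one]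
    exact hG (mem_support_iff.1 hm)

lemma ev_fix {G : MvPolynomial σ ℂ} (h : ∀ m, θ (coeff m G) = ↑(fun _ : ℕ => coeff m G))
    {p : σ → ℂ} {p' : σ → ℕ → ℂ} (hp : ∀ i, θ (p i) = pj 𝒰 (p' i)) :
    eval p G = 0 ↔ ∀ᶠ k in 𝒰, eval (fun i => p' i k) G = 0 := by
  have h1 : Rp θ G (map (Pi.constRingHom ℕ ℂ) G) := MvPolynomial.ext _ _ fun m => by
    rw [coeff_map, coeff_map, coeff_map, h]
    rfl
  have h2 : ∀ k, tm k (map (Pi.constRingHom ℕ ℂ) G) = G := fun k => MvPolynomial.ext _ _ fun m => by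
    rw [tm, coeff_map, coeff_map]
    rfl
  simpa only [h2] using h1.eval hp

lemma nz_tr {N : ℕ} {p : V N} {p' : Fin N → ℕ → ℂ} (hp : ∀ i, θ (p i) = pj 𝒰 (p' i)) :
    p = 0 ↔ ∀ᶠ k in 𝒰, (fun i => p' i k) = 0 := by
  simp only [funext_iff, eventually_all]
  exact forall_congr' fun i => pj_zero (hp i)

lemma closed_tr {N : ℕ} {Z : Set (PS N)} (hZ : IsZClosed Z) : ∃ s : Set ℂ, s.Countable ∧
    ∃ Q : V N → Prop, (∀ p (h : p ≠ 0), Projectivization.mk ℂ p h ∈ Z ↔ Q p) ∧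
    ∀ (𝒰 : Ultrafilter ℕ) (θ : ℂ →+* Germ (𝒰 : Filter ℕ) ℂ), (∀ c ∈ s, θ c = ↑(fun _ : ℕ => c)) →
      ∀ (p : V N) (p' : Fin N → ℕ → ℂ), (∀ i, θ (p i) = pj 𝒰 (p' i)) →
        (Q p ↔ ∀ᶠ k in 𝒰, Q fun i => p' i k) := by
  obtain ⟨S, hS, rfl⟩ := hZ
  obtain ⟨T, t1, t2⟩ := (Submodule.fg_span_iff_fg_span_finset_subset S).1
    (IsNoetherian.noetherian (Ideal.span S))
  refine ⟨⋃ F ∈ T, range fun m => coeff m F, T.countable_toSet.biUnion fun _ _ => countable_range _,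
    fun p => ∀ F ∈ T, eval p F = 0, fun p h => ⟨fun q F hF => ?_, fun q F hF => ?_⟩,
    fun 𝒰 θ hθ p p' hp => ?_⟩
  · obtain ⟨d, hd⟩ := hS F (t1 hF)
    exact (eval_mk hd h).1 (q F (t1 hF))
  · obtain ⟨d, hd⟩ := hS F hF
    rw [eval_mk hd h]
    have h1 : F ∈ Ideal.span (T : Set (PR N)) := by
      rw [Ideal.span, ← t2]
      exact Submodule.subset_span hF
    exact (Ideal.span_le (I := RingHom.ker (eval p))).2 (fun G hG => q G hG) h1
  · rw [eventually_all_finset]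
    exact forall₂_congr fun F hF => ev_fix (fun m => hθ _ (mem_biUnion hF ⟨m, rfl⟩)) hp

lemma var_tr {N : ℕ} {U : Set (PS N)} (hU : IsVar U) : ∃ s : Set ℂ, s.Countable ∧
    ∀ (𝒰 : Ultrafilter ℕ) (θ : ℂ →+* Germ (𝒰 : Filter ℕ) ℂ), (∀ c ∈ s, θ c = ↑(fun _ : ℕ => c)) →
      ∀ (p : V N) (p' : Fin N → ℕ → ℂ), (∀ i, θ (p i) = pj 𝒰 (p' i)) →
        (p ∈ Cone U ↔ ∀ᶠ k in 𝒰, (fun i => p' i k) ∈ Cone U) := by
  obtain ⟨-, Z, W, hZ, hW, rfl⟩ := hU
  obtain ⟨s, s1, Q, q1, q2⟩ := closed_tr hZ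
  obtain ⟨s', s2, Q', q3, q4⟩ := closed_tr hW
  have e : ∀ p : V N, p ∈ Cone (Z \ W) ↔ ¬ p = 0 ∧ Q p ∧ ¬ Q' p := fun p =>
    ⟨fun ⟨h, a⟩ => ⟨h, (q1 p h).1 a.1, fun b => a.2 ((q3 p h).2 b)⟩,
      fun ⟨h, a, b⟩ => ⟨h, (q1 p h).2 a, fun c => b ((q3 p h).1 c)⟩⟩
  refine ⟨s ∪ s', s1.union s2, fun 𝒰 θ hθ p p' hp => ?_⟩
  simp only [e, eventually_and, Ultrafilter.eventually_not]
  rw [nz_tr hp, q2 𝒰 θ (fun c h => hθ c (Or.inl h)) p p' hp,
    q4 𝒰 θ (fun c h => hθ c (Or.inr h)) p p' hp]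

variable {L : Type} [Field L] [Algebra ℂ L]

lemma lin_tr [Countable σ] (t : σ → L) : ∃ s : Set ℂ, s.Countable ∧
    ∀ (𝒰 : Ultrafilter ℕ) (θ : ℂ →+* Germ (𝒰 : Filter ℕ) ℂ), (∀ c ∈ s, θ c = ↑(fun _ : ℕ => c)) →
      ∀ G G', Rp θ G G' → (aeval t G = 0 ↔ ∀ᶠ k in 𝒰, aeval t (tm k G') = 0) := by
  classical
  let B := Module.Basis.ofVectorSpace ℂ L
  let μ : (σ →₀ ℕ) → L := fun m => aeval t (monomial m (1 : ℂ))
  refine ⟨⋃ m, range (B.repr (μ m)), countable_iUnion fun m => (Finsupp.finite_range _).countable,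
    fun 𝒰 θ hθ G G' h => ?_⟩
  let I := G.support ∪ G'.support
  let J := I.biUnion fun m => (B.repr (μ m)).support
  have e : ∀ H : MvPolynomial σ ℂ, H.support ⊆ I →
      (aeval t H = 0 ↔ ∀ j ∈ J, ∑ m ∈ I, coeff m H * B.repr (μ m) j = 0) := fun H hH => by
    have h1 : aeval t H = ∑ m ∈ I, coeff m H • μ m := by
      conv_lhs => rw [H.as_sum, Finset.sum_subset hH fun m _ q => by
        rw [notMem_support_iff.1 q, map_zero], map_sum]
      exact Finset.sum_congr rfl fun m _ => by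
        rw [← map_smul, smul_monomial, smul_eq_mul, mul_one]
    have h2 : ∀ j, B.repr (aeval t H) j = ∑ m ∈ I, coeff m H * B.repr (μ m) j := fun j => by
      simp only [h1, map_sum, map_smul, Finsupp.coe_finsetSum, Finset.sum_apply, Finsupp.smul_apply,
        smul_eq_mul]
    refine ⟨fun q j _ => by rw [← h2, q, map_zero, Finsupp.zero_apply], fun q =>
      B.ext_elem fun j => ?_⟩
    rw [h2, map_zero, Finsupp.zero_apply]
    by_cases hj : j ∈ J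
    · exact q j hj
    · exact Finset.sum_eq_zero fun m hm => by
        rw [Finsupp.notMem_support_iff.1 fun a => hj (Finset.mem_biUnion.2 ⟨m, hm, a⟩), mul_zero]
  rw [e G Finset.subset_union_left]
  simp only [fun k => e (tm k G') ((support_map_subset _ _).trans Finset.subset_union_right),
    eventually_all_finset]
  refine forall₂_congr fun j _ => ?_
  refine pj_zero (θ := θ) (f := fun k => ∑ m ∈ I, coeff m (tm k G') * B.repr (μ m) j) ?_
  rw [show (fun k => ∑ m ∈ I, coeff m (tm k G') * B.repr (μ m) j) =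
    ∑ m ∈ I, coeff m G' * fun _ => B.repr (μ m) j from funext fun k => by
      simp [tm, coeff_map], map_sum, map_sum]
  refine Finset.sum_congr rfl fun m _ => ?_
  rw [map_mul, map_mul, hθ _ (mem_iUnion.2 ⟨m, j, rfl⟩), ← coeff_map, h, coeff_map]
  rfl

end Pool.Agent.MP_c69980_ag.I4.RigX
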