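import Pool.Agent.MP_c69980_ag.E1.SpecC
import Pool.Agent.MP_c69980_ag.E1.SpecB

/-!
From a smooth projective model to the open surface: statements.
-/

set_option autoImplicit false

noncomputable section

namespace Pool.Agent.MP_c69980_ag.I4

open MvPolynomial Metric Filter Topology Set
open H60 H4 E1

/-- The local rings of `W` are regular of dimension two. -/
def Rg2 {n : ℕ} {K : Type} [Field K] [Algebra ℂ K] (W : Set (PS n)) (z : Fin n → K) : Prop :=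
  ∀ x ∈ W, IsRegularLocalRing (locRing z x) ∧ ringKrullDim (locRing z x) = 2

/-- The linear form `x j * X c - x c * X j`. -/
def lf {n : ℕ} (x : V n) (j c : Fin n) : PR n := C (x j) * X c - C (x c) * X j

/-- The form `g * lf c - A * lf a - B * lf b`. -/
def ct {n : ℕ} (x : V n) (j a b c : Fin n) (g A B : PR n) : PR n :=
  g * lf x j c - A * lf x j a - B * lf x j b

/-! ### Rows Gen, Cut: the Jacobian criterion -/

/-- Two coordinates generate the maximal ideal. -/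
def GenStmt : Prop := ∀ (n : ℕ) (W : Set (PS n)) (K : Type) [Field K] [Algebra ℂ K]
  (z : Fin n → K), GenPt W z → Rg2 W z → ∀ x ∈ W, ∃ j a b : Fin n, j ≠ a ∧ j ≠ b ∧ a ≠ b ∧
    x.rep j ≠ 0 ∧ ∀ c, ∃ (g A B : PR n) (e : ℕ), g.IsHomogeneous e ∧ A.IsHomogeneous e ∧
      B.IsHomogeneous e ∧ eval x.rep g ≠ 0 ∧ aeval z (ct x.rep j a b c g A B) = 0

/-- These relations cut out the surface near `x`. -/
def CutStmt : Prop := ∀ (n : ℕ) (W : Set (PS n)) (K : Type) [Field K] [Algebra ℂ K]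
  (z : Fin n → K), IsZClosed W → GenPt W z → Rg2 W z → ∀ x ∈ W, ∀ (j a b : Fin n)
  (g A B : Fin n → PR n) (e : Fin n → ℕ), x.rep j ≠ 0 → (∀ c, (g c).IsHomogeneous (e c) ∧
    (A c).IsHomogeneous (e c) ∧ (B c).IsHomogeneous (e c) ∧ eval x.rep (g c) ≠ 0 ∧
    aeval z (ct x.rep j a b c (g c) (A c) (B c)) = 0) →
  ∃ (s : PR n) (d : ℕ), s.IsHomogeneous d ∧ eval x.rep s ≠ 0 ∧ ∀ y : PS n, eval y.rep s ≠ 0 →
    (∀ c, c ≠ j → c ≠ a → c ≠ b → eval y.rep (ct x.rep j a b c (g c) (A c) (B c)) = 0) → y ∈ W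

def SmoStmt : Prop := ∀ (n : ℕ) (W : Set (PS n)) (K : Type) [Field K] [Algebra ℂ K]
  (z : Fin n → K), IsZClosed W → GenPt W z → Rg2 W z → Smo W

/-! ### Rows Sur, Wan, Walg, Xi, Ext: rational maps to an elliptic curve are morphisms -/

/-- The Weierstrass cubic. -/
def cub (L : PeriodPair) : PR 3 :=
  X 1 ^ 2 * X 2 - (C 4 * X 0 ^ 3 - C L.g₂ * X 0 * X 2 ^ 2 - C L.g₃ * X 2 ^ 3)

def SurStmt : Prop := ∀ L : PeriodPair, (cub L).IsHomogeneous 3 ∧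
  ∀ w : V 3, w ∈ Cone (Ell L) ↔ w ≠ 0 ∧ eval w (cub L) = 0

def WanStmt : Prop := ∀ (L : PeriodPair) (F : ℂ × ℂ → V 3) (q : ℂ × ℂ), AnalyticAt ℂ F q →
  (∀ᶠ p in 𝓝[≠] q, F p ∈ Cone (Ell L)) → F q ≠ 0

def WalgStmt : Prop := ∀ (K : Type) [Field K] [Algebra ℂ K] (O : Subalgebra ℂ K),
  IsRegularLocalRing O → ringKrullDim O = 2 → (∀ u : K, ∃ a ∈ O, ∃ b ∈ O, b ≠ 0 ∧ u = a / b) →
  ∀ (N : ℕ) (ξ : Fin N → K), ξ ≠ 0 → ∃ l : K, l ≠ 0 ∧ (∀ i, l * ξ i ∈ O) ∧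
    ∀ t : O, ¬ IsUnit t → ∃ (k : ℕ) (α : Fin N → K), (∀ i, α i ∈ O) ∧
      (t : K) ^ k = ∑ i, α i * (l * ξ i)

/-- `ξ` is not proportional to a constant vector. -/
def NC {K : Type} [Field K] [Algebra ℂ K] {N : ℕ} (ξ : Fin N → K) : Prop :=
  ¬ ∃ (c : V N) (l : K), ∀ i, ξ i = l * algebraMap ℂ K (c i)

/-- The rational map `ξ` is defined at every point of `W`. -/
def Def {n N : ℕ} {K : Type} [Field K] [Algebra ℂ K] (W : Set (PS n)) (z : Fin n → K)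
    (ξ : Fin N → K) : Prop :=
  ∀ x ∈ W, ∃ l : K, l ≠ 0 ∧ (∀ i, Reg z x.rep (l * ξ i)) ∧ ∃ i, vl z (l * ξ i) x.rep ≠ 0

/-- The generic value of a morphism. -/
def XiUStmt : Prop := ∀ (n N : ℕ) (U : Set (PS n)) (K : Type) [Field K] [Algebra ℂ K]
  (z : Fin n → K) (u : U → PS N), GenPt U z → IsMor u → (∃ x y, u x ≠ u y) →
  ∃ ξ : Fin N → K, NC ξ ∧ ∀ (F : PR N) (d : ℕ), F.IsHomogeneous d →
    (∀ x, eval (u x).rep F = 0) → aeval ξ F = 0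

/-- The morphism given by a rational map that is defined everywhere. -/
def XiWStmt : Prop := ∀ (n N : ℕ) (W : Set (PS n)) (K : Type) [Field K] [Algebra ℂ K]
  (z : Fin n → K) (ξ : Fin N → K), GenPt W z → NC ξ → Def W z ξ →
  ∃ u : W → PS N, IsMor u ∧ (∃ x y, u x ≠ u y) ∧ ∀ (F : PR N) (d : ℕ), F.IsHomogeneous d →
    aeval ξ F = 0 → ∀ x, eval (u x).rep F = 0

def ExtStmt : Prop := ∀ (n : ℕ) (W : Set (PS n)) (K : Type) [Field K] [Algebra ℂ K]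
  (z : Fin n → K) (L : PeriodPair) (ξ : Fin 3 → K), GenPt W z → Rg2 W z → WC W → ξ ≠ 0 →
  aeval ξ (cub L) = 0 → Def W z ξ

/-! ### Row Trf: discs in `U` lift to the model -/

def TrfStmt : Prop := ∀ (n n' : ℕ) (U : Set (PS n)) (W : Set (PS n')) (K : Type) [Field K]
  [Algebra ℂ K] (z : Fin n → K) (z' : Fin n' → K) (π : PS n' → PS n) (m : ℕ)
  (E : Fin 2 → Derivation ℂ K K) (h : Fin 3 → K) (P : PR n') (e : ℕ) (j : Fin n) (j' : Fin n'),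
  GenPt U z → LDat U z W z' π m E h → P.IsHomogeneous e → aeval z' P ≠ 0 → z j ≠ 0 → z' j' ≠ 0 →
  (∀ p, eval p P ≠ 0 → Good2 {x ∈ W | π x ∈ U} j' p) →
  ∃ (H : PR n) (a : ℕ), H.IsHomogeneous a ∧ aeval z H ≠ 0 ∧ ∀ p, eval p H ≠ 0 → Good2 U j p

/-! ### Rows Ult, Rig, Pt: pointed maps to an open variety -/

/-- Embeddings of `ℂ` in an ultrapower. -/
def UltStmt : Prop := ∀ (𝒰 : Ultrafilter ℕ) (s : Set ℂ) (ι : Type) [Finite ι] (w : ι → ℕ → ℂ)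
  (i₀ : ι) (M : ℝ), s.Countable → (∀ c, ∀ᶠ k in 𝒰, w i₀ k ≠ c) →
  ∃ (θ : ℂ →+* Germ (𝒰 : Filter ℕ) ℂ) (v : ι → ℂ), (∀ c ∈ s, θ c = ↑(fun _ : ℕ => c)) ∧
    (∀ i, θ (v i) = ↑(w i)) ∧ M < ‖v i₀‖

def KBOStmt : Prop := ∀ (n : ℕ) (U : Set (PS n)) (x : PS n) (j : Fin n), x.rep j ≠ 0 →
  Good2 U j (nrm j x.rep) → KB U x

/-- Rigidity of pointed curves of bounded height. -/
def RigOStmt : Prop := ∀ (n r : ℕ) (U : Set (PS n)) (x : PS n) (C : Set (PS r)) (L : Type)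
  [Field L] [Algebra ℂ L] (v : Fin r → L) (pl : C → H43.Pl L) (c : C) (d : ℕ)
  (y : ℕ → Fin n → L), IsVar U → KB U x → H43.Sm1 C v → H43.Cv C v pl →
  (∀ k c', ∃ x' ∈ U, H43.Red (pl c') (y k) x') → (∀ k, H43.ht (y k) ≤ d) →
  (∀ k, H43.Red (pl c) (y k) x) → ∃ k k', k ≠ k' ∧ ∃ l : L, y k = l • y k'

def PtOStmt : Prop := ∀ (n : ℕ) (U : Set (PS n)) (K : Type) [Field K] [Algebra ℂ K]
  (z : Fin n → K) (H : PR n) (a : ℕ) (j : Fin n), IsVar U → GenPt U z → H.IsHomogeneous a →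
  aeval z H ≠ 0 → z j ≠ 0 → (∀ p, eval p H ≠ 0 → Good2 U j p) → PseudoBdd U → H43.PseudoFin U

end Pool.Agent.MP_c69980_ag.I4
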